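import Mathlib

set_option autoImplicit false

/-! Gauge functions of star bodies and an inner product invariant under all linear symmetries. -/

namespace Pool.Agent.H87Star

open MeasureTheory Metric Set

/-- A continuous positively homogeneous function which is positive away from the origin: the gauge
of a star body. -/
structure IsGauge {X : Type*} [NormedAddCommGroup X] [InnerProductSpace ℝ X] (f : X → ℝ) : Prop where
  cont : Continuous f
  hom : ∀ (t : ℝ), 0 ≤ t → ∀ v, f (t • v) = t * f v
  pos : ∀ v, v ≠ 0 → 0 < f v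

section
variable {X : Type*} [NormedAddCommGroup X] [InnerProductSpace ℝ X] [FiniteDimensional ℝ X]
  {f : X → ℝ}

lemma IsGauge.zero (hf : IsGauge f) : f 0 = 0 := by
  have := hf.hom 0 le_rfl 0
  simpa using this

lemma IsGauge.nonneg (hf : IsGauge f) (v : X) : 0 ≤ f v := by
  by_cases h : v = 0
  · rw [h, hf.zero]
  · exact (hf.pos v h).le

lemma IsGauge.bounds (hf : IsGauge f) :
    ∃ c C : ℝ, 0 < c ∧ 0 < C ∧ ∀ v, c * ‖v‖ ≤ f v ∧ f v ≤ C * ‖v‖ := by
  by_cases hX : Nontrivial X
  · have hcomp : IsCompact (sphere (0:X) 1) := isCompact_sphere 0 1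
    have hne : (sphere (0:X) 1).Nonempty := NormedSpace.sphere_nonempty.2 zero_le_one
    obtain ⟨a, ha, hmin⟩ := hcomp.exists_isMinOn hne hf.cont.continuousOn
    obtain ⟨b, hb, hmax⟩ := hcomp.exists_isMaxOn hne hf.cont.continuousOn
    have ha0 : a ≠ 0 := by
      rintro rfl; simp at ha
    have hb0 : b ≠ 0 := by
      rintro rfl; simp at hb
    refine ⟨f a, f b, hf.pos a ha0, hf.pos b hb0, fun v => ?_⟩
    by_cases hv : v = 0
    · subst hv; simp [hf.zero]
    · have hn : 0 < ‖v‖ := norm_pos_iff.2 hv
      have hu : ‖v‖⁻¹ • v ∈ sphere (0:X) 1 := by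
        simp [norm_smul, hn.ne']
      have e : f v = ‖v‖ * f (‖v‖⁻¹ • v) := by
        rw [← hf.hom _ hn.le, smul_smul, mul_inv_cancel₀ hn.ne', one_smul]
      have h1 := hmin hu
      have h2 := hmax hu
      simp only [mem_ofPred_eq] at h1 h2
      rw [e]
      constructor
      · nlinarith
      · nlinarith
  · rw [not_nontrivial_iff_subsingleton] at hX
    refine ⟨1, 1, one_pos, one_pos, fun v => ?_⟩
    have : v = 0 := Subsingleton.elim _ _
    subst this; simp [hf.zero]

/-- the polar set -/
def polarSet (f : X → ℝ) : Set X := {u | ∀ v, inner ℝ u v ≤ f v}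

lemma isClosed_polarSet : IsClosed (polarSet f) := by
  have : polarSet f = ⋂ v, {u : X | inner ℝ u v ≤ f v} := by
    ext u; simp [polarSet]
  rw [this]
  refine isClosed_iInter (fun v => ?_)
  exact isClosed_le (by fun_prop) continuous_const

lemma polarSet_subset (hf : IsGauge f) : ∃ C : ℝ, 0 < C ∧ polarSet f ⊆ closedBall 0 C := by
  obtain ⟨c, C, hc, hC, h⟩ := hf.bounds
  refine ⟨C, hC, fun u hu => ?_⟩
  rw [mem_closedBall_zero_iff]
  have h1 := hu u
  rw [real_inner_self_eq_norm_sq] at h1
  have h2 := (h u).2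
  by_contra hlt
  push Not at hlt
  nlinarith [norm_nonneg u]

lemma subset_polarSet (hf : IsGauge f) : ∃ c : ℝ, 0 < c ∧ ball 0 c ⊆ polarSet f := by
  obtain ⟨c, C, hc, hC, h⟩ := hf.bounds
  refine ⟨c, hc, fun u hu v => ?_⟩
  rw [mem_ball_zero_iff] at hu
  have h1 := real_inner_le_norm u v
  have h2 := (h v).1
  nlinarith [norm_nonneg v]

lemma isCompact_polarSet (hf : IsGauge f) : IsCompact (polarSet f) := by
  obtain ⟨C, hC, h⟩ := polarSet_subset hf
  exact (isCompact_closedBall (0:X) C).of_isClosed_subset isClosed_polarSet h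

lemma mem_polarSet_adjoint (g : X →ₗ[ℝ] X) (hg : ∀ v, f (g v) = f v)
    (hs : Function.Surjective g) (u : X) :
    LinearMap.adjoint g u ∈ polarSet f ↔ u ∈ polarSet f := by
  constructor
  · intro h w
    obtain ⟨v, rfl⟩ := hs w
    rw [hg, ← LinearMap.adjoint_inner_left]
    exact h v
  · intro h v
    rw [LinearMap.adjoint_inner_left, ← hg]
    exact h _

lemma injective_of_comp {Y : Type*} [NormedAddCommGroup Y] [InnerProductSpace ℝ Y]
    {h : Y → ℝ} (hh : IsGauge h) (hf0 : f 0 = 0) (g : Y →ₗ[ℝ] X) (hg : ∀ v, f (g v) = h v) :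
    Function.Injective g := by
  rw [← LinearMap.ker_eq_bot, LinearMap.ker_eq_bot']
  intro v hv
  by_contra hne
  have := hh.pos v hne
  rw [← hg, hv, hf0] at this
  exact lt_irrefl _ this


section form
variable [MeasurableSpace X] [BorelSpace X] (μ : Measure X) [μ.IsAddHaarMeasure]

lemma integrableOn_inner (hf : IsGauge f) (v w : X) :
    IntegrableOn (fun u => inner ℝ u v * inner ℝ u w) (polarSet f) μ := by
  refine ContinuousOn.integrableOn_compact (isCompact_polarSet hf) ?_
  fun_prop

/-- the moment form of the polar set -/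
noncomputable def mform (hf : IsGauge f) : X →ₗ[ℝ] X →ₗ[ℝ] ℝ :=
  LinearMap.mk₂ ℝ (fun v w => ∫ u in polarSet f, inner ℝ u v * inner ℝ u w ∂μ)
    (fun v v' w => by
      rw [← integral_add (integrableOn_inner μ hf v w) (integrableOn_inner μ hf v' w)]
      congr 1; ext u; rw [inner_add_right]; ring)
    (fun c v w => by
      rw [smul_eq_mul, ← integral_const_mul]
      congr 1; ext u; rw [inner_smul_right]; ring)
    (fun v w w' => by
      rw [← integral_add (integrableOn_inner μ hf v w) (integrableOn_inner μ hf v w')]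
      congr 1; ext u; rw [inner_add_right]; ring)
    (fun c v w => by
      rw [smul_eq_mul, ← integral_const_mul]
      congr 1; ext u; rw [inner_smul_right]; ring)

lemma mform_apply (hf : IsGauge f) (v w : X) :
    mform μ hf v w = ∫ u in polarSet f, inner ℝ u v * inner ℝ u w ∂μ := rfl

lemma mform_symm (hf : IsGauge f) (v w : X) : mform μ hf v w = mform μ hf w v := by
  rw [mform_apply, mform_apply]
  congr 1; ext u; ring

lemma mform_pos (hf : IsGauge f) (v : X) (hv : v ≠ 0) : 0 < mform μ hf v v := by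
  rw [mform_apply]
  have hnn : ∀ u : X, 0 ≤ inner ℝ u v * inner ℝ u v := fun u => mul_self_nonneg _
  rw [setIntegral_pos_iff_support_of_nonneg_ae (Filter.Eventually.of_forall hnn)
    (integrableOn_inner μ hf v v)]
  obtain ⟨c, hc, hb⟩ := subset_polarSet hf
  have hopen : IsOpen (ball (0:X) c ∩ {u : X | 0 < inner ℝ u v}) :=
    isOpen_ball.inter (isOpen_lt continuous_const (by fun_prop))
  have hn : 0 < ‖v‖ := norm_pos_iff.2 hv
  have hne : (ball (0:X) c ∩ {u : X | 0 < inner ℝ u v}).Nonempty := by
    refine ⟨(c / (2 * ‖v‖)) • v, ?_, ?_⟩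
    · rw [mem_ball_zero_iff, norm_smul, Real.norm_of_nonneg (by positivity)]
      have : c / (2 * ‖v‖) * ‖v‖ = c / 2 := by field_simp
      rw [this]; linarith
    · show 0 < inner ℝ ((c / (2 * ‖v‖)) • v) v
      rw [inner_smul_left, real_inner_self_eq_norm_sq]
      simp only [conj_trivial]
      positivity
  refine lt_of_lt_of_le (hopen.measure_pos μ hne) (measure_mono ?_)
  rintro u ⟨h1, h2⟩
  refine ⟨?_, hb h1⟩
  rw [Function.mem_support]
  have h2' : 0 < inner ℝ u v := h2
  positivity

lemma mform_inv (hf : IsGauge f) (g : X →ₗ[ℝ] X) (hg : ∀ v, f (g v) = f v) (v w : X) :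
    mform μ hf (g v) (g w) = mform μ hf v w := by
  have hinj : Function.Injective g := injective_of_comp hf hf.zero g hg
  have hsurj : Function.Surjective g := LinearMap.injective_iff_surjective.1 hinj
  set a : X →ₗ[ℝ] X := LinearMap.adjoint g with ha
  have hainj : Function.Injective a := by
    rw [← LinearMap.ker_eq_bot, LinearMap.ker_eq_bot']
    intro u hu
    obtain ⟨z, rfl⟩ := hsurj u
    have : inner ℝ (g z) (g z) = (0:ℝ) := by
      rw [← LinearMap.adjoint_inner_left, ← ha, hu, inner_zero_left]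
    exact inner_self_eq_zero.1 this
  have hdet : LinearMap.det a ≠ 0 := by
    intro h0
    have := LinearMap.bot_lt_ker_of_det_eq_zero h0
    rw [LinearMap.ker_eq_bot.2 hainj] at this
    exact lt_irrefl _ this
  have hmap := Measure.map_linearMap_addHaar_eq_smul_addHaar μ hdet
  have hpre : a ⁻¹' (polarSet f) = polarSet f := by
    ext u
    exact mem_polarSet_adjoint g hg hsurj u
  have hmeas : MeasurableSet (polarSet f) := isClosed_polarSet.measurableSet
  have hcont : Continuous a := a.continuous_of_finiteDimensional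
  -- the determinant has absolute value one
  have hfin : μ (polarSet f) ≠ ⊤ := (isCompact_polarSet hf).measure_lt_top.ne
  have hposm : μ (polarSet f) ≠ 0 := by
    obtain ⟨c, hc, hb⟩ := subset_polarSet hf
    exact (lt_of_lt_of_le (isOpen_ball.measure_pos μ ⟨0, mem_ball_self hc⟩)
      (measure_mono hb)).ne'
  have h1 : Measure.map a μ (polarSet f) = μ (polarSet f) := by
    rw [Measure.map_apply hcont.measurable hmeas, hpre]
  rw [hmap, Measure.smul_apply, smul_eq_mul] at h1
  have hone : ENNReal.ofReal |(LinearMap.det a)⁻¹| = 1 := by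
    have h2 : ENNReal.ofReal |(LinearMap.det a)⁻¹| * μ (polarSet f) = 1 * μ (polarSet f) := by
      rw [h1, one_mul]
    exact (ENNReal.mul_left_inj hposm hfin).1 h2
  rw [hone, one_smul] at hmap
  rw [mform_apply, mform_apply]
  have e1 : ∀ u : X, inner ℝ u (g v) * inner ℝ u (g w) = inner ℝ (a u) v * inner ℝ (a u) w := by
    intro u
    rw [ha, LinearMap.adjoint_inner_left, LinearMap.adjoint_inner_left]
  simp_rw [e1]
  conv_rhs => rw [← hmap]
  rw [setIntegral_map hmeas (by fun_prop) hcont.aemeasurable, hpre]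

end form

/-- Every star body has an inner product preserved by all its linear symmetries. -/
theorem exists_form (hf : IsGauge f) : ∃ b : X →ₗ[ℝ] X →ₗ[ℝ] ℝ, (∀ v w, b v w = b w v) ∧
    (∀ v, v ≠ 0 → 0 < b v v) ∧
    ∀ g : X →ₗ[ℝ] X, (∀ v, f (g v) = f v) → ∀ v w, b (g v) (g w) = b v w := by
  letI : MeasurableSpace X := borel X
  haveI : BorelSpace X := ⟨rfl⟩
  refine ⟨mform Measure.addHaar hf, mform_symm _ hf, mform_pos _ hf, ?_⟩
  intro g hg v w
  exact mform_inv _ hf g hg v w

end

end Pool.Agent.H87Star
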