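import Mathlib
import Pool.Agent.H87Star.Moment

set_option autoImplicit false

/-! Gauges with rotational symmetry about an axis. -/

namespace Pool.Agent.H87Star

open Set Filter Topology

variable {X : Type*} [NormedAddCommGroup X] [InnerProductSpace ℝ X]

/-- `f` is invariant under all orthogonal maps fixing `e`. -/
def Axial (f : X → ℝ) (e : X) : Prop :=
  ∀ v w, ‖v‖ = ‖w‖ → inner ℝ v e = inner ℝ w e → f v = f w

/-- `f` squared is a quadratic form with axis `e`. -/
def Quad (f : X → ℝ) (e : X) : Prop :=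
  ∃ α β : ℝ, ∀ v, f v ^ 2 = α * inner ℝ v e ^ 2 + β * (‖v‖ ^ 2 - inner ℝ v e ^ 2)

lemma norm_reflection_fix {e d : X} (hd : inner ℝ d e = 0) (v : X) :
    inner ℝ ((ℝ ∙ d)ᗮ.reflection v) e = inner ℝ v e := by
  have he : (ℝ ∙ d)ᗮ.reflection e = e := by
    rw [Submodule.reflection_eq_self_iff, Submodule.mem_orthogonal_singleton_iff_inner_right]
    exact hd
  conv_lhs => rw [← he]
  exact LinearIsometryEquiv.inner_map_map _ _ _

/-- form of the invariant inner product of an axial gauge -/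
theorem form_axial [FiniteDimensional ℝ X] {f : X → ℝ} {e : X} (he : ‖e‖ = 1)
    (hA : Axial f e) (b : X →ₗ[ℝ] X →ₗ[ℝ] ℝ) (hs : ∀ v w, b v w = b w v)
    (hp : ∀ v, v ≠ 0 → 0 < b v v)
    (hb : ∀ g : X →ₗ[ℝ] X, (∀ v, f (g v) = f v) → ∀ v w, b (g v) (g w) = b v w) :
    ∃ A C : ℝ, 0 < A ∧ 0 < C ∧ (∀ v, b v v = A * inner ℝ v e ^ 2 + C * (‖v‖ ^ 2 - inner ℝ v e ^ 2))
      ∧ ∀ v, b v e = A * inner ℝ v e := by
  have he0 : e ≠ 0 := by
    rintro rfl; simp at he
  have hee : inner ℝ e e = (1:ℝ) := by rw [real_inner_self_eq_norm_sq, he, one_pow]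
  -- orthogonality
  have horth : ∀ u, inner ℝ u e = 0 → b u e = 0 := by
    intro u hu
    have he' : (ℝ ∙ e).reflection e = e := by
      rw [Submodule.reflection_eq_self_iff]
      exact Submodule.mem_span_singleton_self e
    have hJ : ∀ v : X, f ((ℝ ∙ e).reflection v) = f v := by
      intro v
      refine hA _ _ (by simp) ?_
      have h := LinearIsometryEquiv.inner_map_map ((ℝ ∙ e).reflection) v e
      rwa [he'] at h
    have h1 := hb ((ℝ ∙ e).reflection.toLinearEquiv.toLinearMap) hJ u e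
    have h3 : (ℝ ∙ e).reflection u = -u := by
      apply Submodule.reflection_mem_subspace_orthogonalComplement_eq_neg
      rw [Submodule.mem_orthogonal_singleton_iff_inner_left]
      exact hu
    simp only [LinearEquiv.coe_coe, LinearIsometryEquiv.coe_toLinearEquiv] at h1
    rw [he', h3] at h1
    simp only [map_neg, LinearMap.neg_apply] at h1
    linarith
  have hiso : ∀ u u', inner ℝ u e = 0 → inner ℝ u' e = 0 → ‖u‖ = ‖u'‖ → b u u = b u' u' := by
    intro u u' hu hu' hn
    have hJ : ∀ v : X, f ((ℝ ∙ (u - u'))ᗮ.reflection v) = f v := by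
      intro v
      refine hA _ _ (by simp) ?_
      exact norm_reflection_fix (by rw [inner_sub_left, hu, hu', sub_zero]) v
    have h1 := hb ((ℝ ∙ (u - u'))ᗮ.reflection.toLinearEquiv.toLinearMap) hJ u u
    have h2 : (ℝ ∙ (u - u'))ᗮ.reflection u = u' := Submodule.reflection_sub hn
    simp only [LinearEquiv.coe_coe, LinearIsometryEquiv.coe_toLinearEquiv] at h1
    rw [h2] at h1
    exact h1.symm
  obtain ⟨C, hC, hCu⟩ : ∃ C : ℝ, 0 < C ∧ ∀ u, inner ℝ u e = 0 → b u u = C * ‖u‖ ^ 2 := by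
    by_cases h : ∃ u0 : X, u0 ≠ 0 ∧ inner ℝ u0 e = 0
    · obtain ⟨u0, h0, h1⟩ := h
      have hn0 : 0 < ‖u0‖ := norm_pos_iff.2 h0
      refine ⟨b u0 u0 / ‖u0‖ ^ 2, by have := hp u0 h0; positivity, fun u hu => ?_⟩
      by_cases hu0 : u = 0
      · subst hu0; simp
      have hn : 0 < ‖u‖ := norm_pos_iff.2 hu0
      have h2 := hiso ((‖u0‖ / ‖u‖) • u) u0 (by rw [inner_smul_left, hu, mul_zero]) h1 (by
        rw [norm_smul, Real.norm_of_nonneg (by positivity)]; field_simp)
      simp only [map_smul, LinearMap.smul_apply, smul_eq_mul] at h2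
      rw [← h2]
      field_simp
    · push Not at h
      refine ⟨1, one_pos, fun u hu => ?_⟩
      by_cases hu0 : u = 0
      · subst hu0; simp
      · exact absurd hu (h u hu0)
  refine ⟨b e e, C, hp e he0, hC, fun v => ?_, fun v => ?_⟩
  · set u := v - inner ℝ v e • e with hu
    have hue : inner ℝ u e = 0 := by
      rw [hu, inner_sub_left, inner_smul_left, hee]; simp
    have hv : v = u + inner ℝ v e • e := by rw [hu]; abel
    have hnv : ‖v‖ ^ 2 - inner ℝ v e ^ 2 = ‖u‖ ^ 2 := by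
      have : ‖v‖ ^ 2 = ‖u‖ ^ 2 + inner ℝ v e ^ 2 := by
        conv_lhs => rw [hv]
        rw [norm_add_sq_real, inner_smul_right, hue, norm_smul, he, mul_one,
          Real.norm_eq_abs, sq_abs]
        ring
      linarith
    rw [hnv, ← hCu u hue]
    have e1 := horth u hue
    have e2 : b e u = 0 := by rw [hs]; exact e1
    conv_lhs => rw [hv]
    simp only [map_add, map_smul, LinearMap.add_apply, LinearMap.smul_apply, smul_eq_mul]
    rw [e1, e2]
    ring
  · set u := v - inner ℝ v e • e with hu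
    have hue : inner ℝ u e = 0 := by
      rw [hu, inner_sub_left, inner_smul_left, hee]; simp
    have hv : v = u + inner ℝ v e • e := by rw [hu]; abel
    conv_lhs => rw [hv]
    rw [map_add, LinearMap.add_apply, horth u hue, map_smul, LinearMap.smul_apply, smul_eq_mul]
    ring

section form
variable (b : X →ₗ[ℝ] X →ₗ[ℝ] ℝ) (hs : ∀ v w, b v w = b w v) (hp : ∀ v, v ≠ 0 → 0 < b v v)
include hs hp

omit hs in
lemma form_nonneg (v : X) : 0 ≤ b v v := by
  by_cases h : v = 0
  · subst h; simp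
  · exact (hp v h).le

omit hp in
lemma form_sub (v w : X) (t : ℝ) :
    b (v - t • w) (v - t • w) = b v v - 2 * t * b v w + t ^ 2 * b w w := by
  simp only [map_sub, map_smul, LinearMap.sub_apply, LinearMap.smul_apply, smul_eq_mul]
  rw [hs w v]; ring

lemma form_cs (v w : X) : b v w ^ 2 ≤ b v v * b w w := by
  by_cases hw : w = 0
  · subst hw; simp
  have h0 := hp w hw
  have h1 := form_nonneg b hp (v - (b v w / b w w) • w)
  rw [form_sub b hs] at h1
  have h2 : b v v - 2 * (b v w / b w w) * b v w + (b v w / b w w) ^ 2 * b w w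
      = (b v v * b w w - b v w ^ 2) / b w w := by field_simp; ring
  rw [h2] at h1
  have := (div_nonneg_iff.1 h1)
  rcases this with h | h
  · linarith [h.1]
  · linarith [h.2]

lemma form_cs_eq {v w : X} (hw : w ≠ 0) (h : b v w ^ 2 = b v v * b w w) :
    v = (b v w / b w w) • w := by
  have h0 := hp w hw
  by_contra hne
  have h1 := hp (v - (b v w / b w w) • w) (sub_ne_zero.2 hne)
  rw [form_sub b hs] at h1
  have h2 : b v v - 2 * (b v w / b w w) * b v w + (b v w / b w w) ^ 2 * b w w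
      = (b v v * b w w - b v w ^ 2) / b w w := by field_simp; ring
  rw [h2, h, sub_self, zero_div] at h1
  exact lt_irrefl _ h1

end form

/-- an axial gauge depends only on the invariant form and the pairing with the axis -/
lemma axial_b {f : X → ℝ} {e : X} (hA : Axial f e) {b : X →ₗ[ℝ] X →ₗ[ℝ] ℝ} {A C : ℝ}
    (hA0 : 0 < A) (hC0 : 0 < C)
    (h1 : ∀ v, b v v = A * inner ℝ v e ^ 2 + C * (‖v‖ ^ 2 - inner ℝ v e ^ 2))
    (h2 : ∀ v, b v e = A * inner ℝ v e) {v w : X} (hv : b v v = b w w) (he : b v e = b w e) :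
    f v = f w := by
  rw [h2, h2] at he
  have he' : inner ℝ v e = inner ℝ w e := mul_left_cancel₀ hA0.ne' he
  rw [h1, h1, he'] at hv
  have h3 : ‖v‖ ^ 2 = ‖w‖ ^ 2 := by
    have : C * (‖v‖ ^ 2) = C * ‖w‖ ^ 2 := by linarith
    exact mul_left_cancel₀ hC0.ne' this
  exact hA v w ((sq_eq_sq₀ (norm_nonneg _) (norm_nonneg _)).1 h3) he'

/-- if `f` is constant on the unit sphere of the form then it is quadratic -/
lemma quad_of_const {f : X → ℝ} (hf : IsGauge f) {e : X} {b : X →ₗ[ℝ] X →ₗ[ℝ] ℝ} {A C : ℝ}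
    (hp : ∀ v, v ≠ 0 → 0 < b v v)
    (h1 : ∀ v, b v v = A * inner ℝ v e ^ 2 + C * (‖v‖ ^ 2 - inner ℝ v e ^ 2))
    (η : ℝ) (h : ∀ v, b v v = 1 → f v = η) : Quad f e := by
  refine ⟨η ^ 2 * A, η ^ 2 * C, fun v => ?_⟩
  have e1 : η ^ 2 * A * inner ℝ v e ^ 2 + η ^ 2 * C * (‖v‖ ^ 2 - inner ℝ v e ^ 2)
      = η ^ 2 * b v v := by rw [h1]; ring
  rw [e1]
  by_cases hv : v = 0
  · subst hv
    have : f 0 = 0 := by simpa using hf.hom 0 le_rfl 0
    simp [this]
  have hb := hp v hv
  have hsq : 0 < Real.sqrt (b v v) := Real.sqrt_pos.2 hb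
  have h2 : b ((Real.sqrt (b v v))⁻¹ • v) ((Real.sqrt (b v v))⁻¹ • v) = 1 := by
    simp only [map_smul, LinearMap.smul_apply, smul_eq_mul]
    rw [← mul_assoc, ← mul_inv, Real.mul_self_sqrt hb.le, inv_mul_cancel₀ hb.ne']
  have h3 := h _ h2
  rw [hf.hom _ (inv_nonneg.2 hsq.le)] at h3
  have h4 : f v = Real.sqrt (b v v) * η := by
    rw [← h3, ← mul_assoc, mul_inv_cancel₀ hsq.ne', one_mul]
  rw [h4, mul_pow, Real.sq_sqrt hb.le]; ring

/-- Linear symmetries of a non-quadratic axial gauge in dimension at least three preserve the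
axis. -/
theorem sym_axis [FiniteDimensional ℝ X] {f : X → ℝ} {e : X} (hdim : 3 ≤ Module.finrank ℝ X)
    (hf : IsGauge f) (he : ‖e‖ = 1) (hA : Axial f e) (hQ : ¬ Quad f e) (g : X →ₗ[ℝ] X)
    (hg : ∀ v, f (g v) = f v) : ∃ c : ℝ, g e = c • e := by
  obtain ⟨b, hs, hp, hb⟩ := exists_form hf
  obtain ⟨A, C, hA0, hC0, h1, h2⟩ := form_axial he hA b hs hp hb
  have he0 : e ≠ 0 := by rintro rfl; simp at he
  have hee : inner ℝ e e = (1:ℝ) := by rw [real_inner_self_eq_norm_sq, he, one_pow]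
  have hbee : b e e = A := by rw [h2, hee, mul_one]
  have hinj : Function.Injective g := injective_of_comp hf hf.zero g hg
  have hsurj : Function.Surjective g := LinearMap.injective_iff_surjective.1 hinj
  -- an auxiliary vector
  obtain ⟨q, hq0, hq1, hq2⟩ : ∃ q : X, q ≠ 0 ∧ b q e = 0 ∧ b q (g e) = 0 := by
    set φ : X →ₗ[ℝ] ℝ × ℝ := (b e).prod (b (g e)) with hφ
    have hk : LinearMap.ker φ ≠ ⊥ := by
      apply LinearMap.ker_ne_bot_of_finrank_lt
      rw [Module.finrank_prod, Module.finrank_self]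
      omega
    obtain ⟨q, hq, hq0⟩ := Submodule.exists_mem_ne_zero_of_ne_bot hk
    have hq' : ((b e q, b (g e) q) : ℝ × ℝ) = (0, 0) := hq
    rw [Prod.mk.injEq] at hq'
    refine ⟨q, hq0, ?_, ?_⟩
    · rw [hs]; exact hq'.1
    · rw [hs]; exact hq'.2
  by_contra hne
  push Not at hne
  apply hQ
  -- the correlation
  set c : ℝ := b e (g e) / A with hc
  have hgee : b (g e) (g e) = A := by rw [hb g hg, hbee]
  have hcs := form_cs b hs hp e (g e)
  rw [hbee, hgee] at hcs
  have hc1 : |c| < 1 := by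
    rw [hc, abs_div, abs_of_pos hA0, div_lt_one hA0]
    have hle : |b e (g e)| ≤ A := by
      apply abs_le_of_sq_le_sq _ hA0.le
      rw [sq A]; exact hcs
    refine lt_of_le_of_ne hle (fun heq => ?_)
    have h3 : b (g e) e ^ 2 = b (g e) (g e) * b e e := by
      rw [hgee, hbee, hs, ← sq_abs, heq, sq]
    have := form_cs_eq b hs hp he0 h3
    exact hne _ this
  -- the curve
  have hbq := hp q hq0
  set κ := Real.sqrt (b q q) with hκ
  have hκ0 : 0 < κ := Real.sqrt_pos.2 hbq
  have hκ2 : κ ^ 2 = b q q := Real.sq_sqrt hbq.le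
  set α := Real.sqrt A with hα
  have hα0 : 0 < α := Real.sqrt_pos.2 hA0
  have hα2 : α ^ 2 = A := Real.sq_sqrt hA0.le
  set W : ℝ → X := fun s => (s / α) • e + (Real.sqrt (1 - s ^ 2) / κ) • q with hW
  have hWe : ∀ s, b (W s) e = s * α := by
    intro s
    simp only [hW, map_add, map_smul, LinearMap.add_apply, LinearMap.smul_apply, smul_eq_mul,
      hq1, hbee, mul_zero, add_zero]
    rw [← hα2]; field_simp
  have hWg : ∀ s, b (W s) (g e) = s * c * α := by
    intro s
    simp only [hW, map_add, map_smul, LinearMap.add_apply, LinearMap.smul_apply, smul_eq_mul,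
      hq2, mul_zero, add_zero, hc]
    rw [← hα2]; field_simp
  have hWW : ∀ s, |s| ≤ 1 → b (W s) (W s) = 1 := by
    intro s hs1
    have h5 : b e q = 0 := by rw [hs]; exact hq1
    have h6 : 0 ≤ 1 - s ^ 2 := by
      have := (sq_le_one_iff_abs_le_one s).2 hs1; linarith
    simp only [hW, map_add, map_smul, LinearMap.add_apply, LinearMap.smul_apply, smul_eq_mul,
      hq1, h5, hbee, mul_zero, add_zero, zero_add]
    have h7 : Real.sqrt (1 - s ^ 2) ^ 2 = 1 - s ^ 2 := Real.sq_sqrt h6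
    have h8 : s / α * (s / α * A) = s ^ 2 := by rw [← hα2]; field_simp
    have h9 : Real.sqrt (1 - s ^ 2) / κ * (Real.sqrt (1 - s ^ 2) / κ * b q q)
        = Real.sqrt (1 - s ^ 2) ^ 2 := by rw [← hκ2]; field_simp
    rw [h8, h9, h7]; ring
  -- transport by g
  have htrans : ∀ v w, b v v = b w w → b v e = b w (g e) → f v = f w := by
    intro v w hvw hve
    obtain ⟨w', rfl⟩ := hsurj w
    rw [hg]
    rw [hb g hg] at hvw hve
    exact axial_b hA hA0 hC0 h1 h2 hvw hve
  have hstep : ∀ s, |s| ≤ 1 → f (W s) = f (W (c * s)) := by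
    intro s hs1
    have h3 : |c * s| ≤ 1 := by
      rw [abs_mul]; nlinarith [abs_nonneg c, abs_nonneg s]
    exact (htrans _ _ (by rw [hWW _ h3, hWW _ hs1]) (by rw [hWe, hWg]; ring)).symm
  have hiter : ∀ (m : ℕ) (s : ℝ), |s| ≤ 1 → f (W s) = f (W (c ^ m * s)) := by
    intro m
    induction m with
    | zero => intro s _; simp
    | succ m ih =>
      intro s hs1
      have h3 : |c ^ m * s| ≤ 1 := by
        rw [abs_mul, abs_pow]
        have : |c| ^ m ≤ 1 := pow_le_one₀ (abs_nonneg _) hc1.le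
        nlinarith [abs_nonneg s, pow_nonneg (abs_nonneg c) m]
      rw [ih s hs1, hstep _ h3, pow_succ]
      congr 2; ring
  have hWc : Continuous W := by
    rw [hW]; fun_prop
  have hconst : ∀ s, |s| ≤ 1 → f (W s) = f (W 0) := by
    intro s hs1
    have h3 : Tendsto (fun m : ℕ => f (W (c ^ m * s))) atTop (𝓝 (f (W (0 * s)))) := by
      refine ((hf.cont.comp hWc).tendsto _).comp ?_
      exact (tendsto_pow_atTop_nhds_zero_of_abs_lt_one hc1).mul_const s
    rw [zero_mul] at h3
    have h4 : Tendsto (fun m : ℕ => f (W (c ^ m * s))) atTop (𝓝 (f (W s))) := by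
      refine tendsto_const_nhds.congr (fun m => hiter m s hs1)
    exact tendsto_nhds_unique h4 h3
  refine quad_of_const hf hp h1 (f (W 0)) (fun v hv => ?_)
  have h3 : |b v e / α| ≤ 1 := by
    rw [abs_div, abs_of_pos hα0, div_le_one hα0]
    apply abs_le_of_sq_le_sq _ hα0.le
    have := form_cs b hs hp v e
    rw [hv, hbee, one_mul] at this
    rw [hα2]; exact this
  rw [← hconst _ h3]
  refine axial_b hA hA0 hC0 h1 h2 (by rw [hv, hWW _ h3]) ?_
  rw [hWe]; field_simp

end Pool.Agent.H87Star
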