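import Mathlib
import Pool.Agent.H87Star.Axial

set_option autoImplicit false

/-! The iteration argument: an oblique section of a non-quadratic axial gauge is never linearly
equivalent to an axial section. -/

namespace Pool.Agent.H87Star

open Set Filter Topology

variable {X : Type*} [NormedAddCommGroup X] [InnerProductSpace ℝ X]

lemma inner_combo {e q : X} (he : ‖e‖ = 1) (heq : inner ℝ q e = 0) (t r : ℝ) :
    inner ℝ (t • e + r • q) e = t := by
  have hee : inner ℝ e e = (1:ℝ) := by rw [real_inner_self_eq_norm_sq, he, one_pow]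
  rw [inner_add_left, inner_smul_left, inner_smul_left, heq, hee]
  simp

lemma norm_combo {e q : X} (he : ‖e‖ = 1) (hq : ‖q‖ = 1) (heq : inner ℝ q e = 0) (t r : ℝ) :
    ‖t • e + r • q‖ ^ 2 = t ^ 2 + r ^ 2 := by
  rw [norm_add_sq_real, norm_smul, norm_smul, he, hq, inner_smul_left, inner_smul_right,
    real_inner_comm, heq]
  simp

lemma norm_sq_ge {e : X} (he : ‖e‖ = 1) (v : X) : 0 ≤ ‖v‖ ^ 2 - inner ℝ v e ^ 2 := by
  have h := abs_real_inner_le_norm v e
  rw [he, mul_one] at h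
  have := sq_le_sq' (by linarith [neg_abs_le (inner ℝ v e)]) ((le_abs_self _).trans h)
  linarith

/-- reduction to the profile -/
lemma axial_profile {f : X → ℝ} {e q : X} (he : ‖e‖ = 1) (hq : ‖q‖ = 1) (heq : inner ℝ q e = 0)
    (hA : Axial f e) (v : X) {t r : ℝ} (ht : inner ℝ v e = t) (_hr : 0 ≤ r)
    (hn : ‖v‖ ^ 2 = t ^ 2 + r ^ 2) : f v = f (t • e + r • q) := by
  refine hA _ _ ?_ ?_
  · have := norm_combo he hq heq t r
    rw [← hn] at this
    exact ((sq_eq_sq₀ (norm_nonneg _) (norm_nonneg _)).1 this).symm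
  · rw [inner_combo he heq, ht]

theorem iterate_zero [FiniteDimensional ℝ X] {f : X → ℝ} {e q : X} (hf : IsGauge f) (he : ‖e‖ = 1)
    (hq : ‖q‖ = 1) (heq : inner ℝ q e = 0) (hA : Axial f e) (hQ : ¬ Quad f e) {δ σ : ℝ}
    (hδ : 0 ≤ δ) (hσ : 0 < σ)
    (h : ∀ r t : ℝ, 0 ≤ r → f (t • e + r • q) = f ((σ * t) • e + Real.sqrt (r ^ 2 + δ * t ^ 2) • q)) :
    δ = 0 := by
  set S : ℕ → ℝ := fun m => ∑ j ∈ Finset.range m, (σ ^ 2) ^ j with hS
  have hS0 : ∀ m, 0 ≤ S m := fun m => Finset.sum_nonneg (fun j _ => by positivity)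
  have hiter : ∀ (m : ℕ) (r t : ℝ), 0 ≤ r → f (t • e + r • q)
      = f ((σ ^ m * t) • e + Real.sqrt (r ^ 2 + δ * t ^ 2 * S m) • q) := by
    intro m
    induction m with
    | zero => intro r t hr; simp [hS, Real.sqrt_sq hr]
    | succ m ih =>
      intro r t hr
      rw [ih r t hr, h _ _ (Real.sqrt_nonneg _)]
      have h0 : 0 ≤ r ^ 2 + δ * t ^ 2 * S m := by
        have := hS0 m; positivity
      have e1 : Real.sqrt (r ^ 2 + δ * t ^ 2 * S m) ^ 2 + δ * (σ ^ m * t) ^ 2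
          = r ^ 2 + δ * t ^ 2 * S (m+1) := by
        rw [Real.sq_sqrt h0, hS]
        simp only [Finset.sum_range_succ]
        ring
      rw [e1, pow_succ]
      congr 3; ring
  rcases lt_or_ge σ 1 with h1 | h1
  · -- contraction: quadratic
    exfalso
    apply hQ
    have hσ2 : σ ^ 2 < 1 := by nlinarith
    have hlimS : Tendsto S atTop (𝓝 ((1 - σ ^ 2)⁻¹)) :=
      (hasSum_geometric_of_lt_one (by positivity) hσ2).tendsto_sum_nat
    have hlim : ∀ r t : ℝ, 0 ≤ r →
        f (t • e + r • q) = Real.sqrt (r ^ 2 + δ * t ^ 2 * (1 - σ ^ 2)⁻¹) * f q := by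
      intro r t hr
      have h2 : Tendsto (fun m : ℕ => f ((σ ^ m * t) • e
          + Real.sqrt (r ^ 2 + δ * t ^ 2 * S m) • q)) atTop
          (𝓝 (f ((0 * t) • e + Real.sqrt (r ^ 2 + δ * t ^ 2 * (1 - σ ^ 2)⁻¹) • q))) := by
        refine (hf.cont.tendsto _).comp ?_
        refine Tendsto.add ?_ ?_
        · exact ((tendsto_pow_atTop_nhds_zero_of_lt_one hσ.le h1).mul_const t).smul_const e
        · exact ((Real.continuous_sqrt.tendsto _).comp
            (tendsto_const_nhds.add (hlimS.const_mul _))).smul_const q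
      have h3 := tendsto_nhds_unique (tendsto_const_nhds.congr (fun m => hiter m r t hr)) h2
      rw [h3, zero_mul, zero_smul, zero_add, hf.hom _ (Real.sqrt_nonneg _)]
    refine ⟨f q ^ 2 * (δ * (1 - σ ^ 2)⁻¹), f q ^ 2, fun v => ?_⟩
    have h2 := norm_sq_ge he v
    have h3 : f v = f (inner ℝ v e • e + Real.sqrt (‖v‖ ^ 2 - inner ℝ v e ^ 2) • q) :=
      axial_profile he hq heq hA v rfl (Real.sqrt_nonneg _) (by rw [Real.sq_sqrt h2]; ring)
    rw [h3, hlim _ _ (Real.sqrt_nonneg _), mul_pow, Real.sq_sqrt, Real.sq_sqrt h2]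
    · ring
    · have : 0 < (1 - σ ^ 2)⁻¹ := inv_pos.2 (by linarith)
      positivity
  · -- expansion
    by_contra hne
    have hδ0 : 0 < δ := lt_of_le_of_ne hδ (Ne.symm hne)
    obtain ⟨c, C, hc, hC, hb⟩ := hf.bounds
    have hSm : ∀ m : ℕ, (m:ℝ) ≤ S m := by
      intro m
      have : ∑ j ∈ Finset.range m, (1:ℝ) ≤ S m :=
        Finset.sum_le_sum (fun j _ => one_le_pow₀ (one_le_pow₀ h1))
      simpa using this
    have hbig : ∀ m : ℕ, c ^ 2 * δ * m ≤ f e ^ 2 := by
      intro m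
      have h2 := hiter m 0 1 le_rfl
      simp only [one_smul, zero_smul, add_zero, mul_one, one_pow] at h2
      have h3 := (hb ((σ ^ m) • e + Real.sqrt (0 ^ 2 + δ * S m) • q)).1
      rw [← h2] at h3
      have h4 := norm_combo he hq heq (σ ^ m) (Real.sqrt (0 ^ 2 + δ * S m))
      rw [Real.sq_sqrt (by have := hS0 m; positivity)] at h4
      have h5 : (c * ‖(σ ^ m) • e + Real.sqrt (0 ^ 2 + δ * S m) • q‖) ^ 2 ≤ f e ^ 2 :=
        pow_le_pow_left₀ (by positivity) h3 2
      rw [mul_pow, h4] at h5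
      have h6 := hSm m
      have h7 : c ^ 2 * δ * m ≤ c ^ 2 * (δ * S m) := by
        have : 0 ≤ c ^ 2 * δ := by positivity
        nlinarith
      nlinarith [sq_nonneg (σ ^ m), sq_nonneg c, mul_nonneg (sq_nonneg c) (sq_nonneg (σ ^ m))]
    obtain ⟨m, hm⟩ := exists_nat_gt (f e ^ 2 / (c ^ 2 * δ))
    rw [div_lt_iff₀ (by positivity)] at hm
    have := hbig m
    linarith

/-- arbitrarily small periods force a continuous function to be constant -/
lemma const_of_small_periods {g : ℝ → ℝ} (hg : Continuous g)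
    (h : ∀ γ₀ > 0, ∃ γ, 0 < γ ∧ γ < γ₀ ∧ ∀ x, g (x + γ) = g x) (x : ℝ) : g x = g 0 := by
  by_contra hne
  have hpos : 0 < |g x - g 0| := abs_pos.2 (sub_ne_zero.2 hne)
  obtain ⟨δ, hδ, hd⟩ := Metric.continuousAt_iff.1 (hg.continuousAt (x := x)) _ hpos
  obtain ⟨γ, h1, h2, h3⟩ := h δ hδ
  have hper : Function.Periodic g γ := h3
  have h4 : g (⌊x / γ⌋ * γ) = g 0 := by
    have := hper.int_mul ⌊x / γ⌋ 0
    simpa using this
  have h5 : |(⌊x / γ⌋ * γ : ℝ) - x| < δ := by
    have e1 : x = x / γ * γ := by field_simp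
    have e2 : (⌊x / γ⌋ * γ : ℝ) - x = -(Int.fract (x / γ) * γ) := by
      rw [← Int.self_sub_floor]; nth_rewrite 2 [e1]; ring
    rw [e2, abs_neg, abs_of_nonneg (mul_nonneg (Int.fract_nonneg _) h1.le)]
    have := Int.fract_lt_one (x / γ)
    nlinarith
  have h6 := hd (by rw [Real.dist_eq]; exact h5 : dist (⌊x / γ⌋ * γ : ℝ) x < δ)
  rw [h4, Real.dist_eq, abs_sub_comm] at h6
  exact lt_irrefl _ h6

end Pool.Agent.H87Star
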