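import Mathlib
import Pool.Agent.H87Star.Iterate

set_option autoImplicit false

/-! Local rigidity of the axis. -/

namespace Pool.Agent.H87Star

open Set Filter Topology

variable {X U : Type*} [NormedAddCommGroup X] [InnerProductSpace ℝ X]
  [NormedAddCommGroup U] [InnerProductSpace ℝ U]

/-- restriction of a gauge to an isometric copy of a subspace -/
lemma gauge_comp {f : U → ℝ} (hf : IsGauge f) (ι : X →ₗᵢ[ℝ] U) : IsGauge (fun v => f (ι v)) where
  cont := hf.cont.comp ι.continuous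
  hom := by
    intro t ht v
    show f (ι (t • v)) = t * f (ι v)
    rw [map_smul, hf.hom t ht]
  pos := by
    intro v hv
    refine hf.pos _ (fun h => hv ?_)
    have := ι.norm_map v
    rw [h, norm_zero] at this
    exact norm_eq_zero.1 this.symm

lemma axial_comp {f : U → ℝ} {e : U} (hA : Axial f e) (ι : X →ₗᵢ[ℝ] U) {eX : X} (he : ι eX = e) :
    Axial (fun v => f (ι v)) eX := by
  intro v w h1 h2
  refine hA _ _ ?_ ?_
  · rw [ι.norm_map, ι.norm_map, h1]
  · rw [← he, ι.inner_map_map, ι.inner_map_map, h2]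

/-- the reflection of the section `ψ X` about its own axis, read in `X` -/
lemma section_reflection {f : U → ℝ} {e : U} (hA : Axial f e)
    (ψ : X →ₗ[ℝ] U) (w : X) (hw0 : ψ w ≠ 0) (hw : ∀ v, inner ℝ (ψ v) e = inner ℝ (ψ v) (ψ w)) :
    ∃ R : X →ₗ[ℝ] X, (∀ v, f (ψ (R v)) = f (ψ v)) ∧ R w = w ∧
      (∀ v, inner ℝ (ψ v) e = 0 → R v = -v) := by
  have hn : 0 < ‖ψ w‖ := norm_pos_iff.2 hw0
  have hn2 : (‖ψ w‖ ^ 2) ≠ 0 := by positivity
  set lam : X →ₗ[ℝ] ℝ := (innerₗ U e) ∘ₗ ψ with hlam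
  have hlv : ∀ v, lam v = inner ℝ (ψ v) e := by
    intro v
    rw [hlam, LinearMap.comp_apply, innerₗ_apply_apply, real_inner_comm]
  set R : X →ₗ[ℝ] X := (2 / ‖ψ w‖ ^ 2) • (lam.smulRight w) - LinearMap.id with hR
  have hRv : ∀ v, R v = (2 / ‖ψ w‖ ^ 2 * inner ℝ (ψ v) e) • w - v := by
    intro v
    simp only [hR, LinearMap.sub_apply, LinearMap.smul_apply, LinearMap.smulRight_apply,
      LinearMap.id_coe, id_eq, smul_smul, hlv]
  refine ⟨R, ?_, ?_, ?_⟩
  · intro v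
    have e1 : ψ (R v) = (2 / ‖ψ w‖ ^ 2 * inner ℝ (ψ v) (ψ w)) • ψ w - ψ v := by
      rw [hRv, map_sub, map_smul, hw v]
    have hin : inner ℝ (ψ (R v)) (ψ w) = inner ℝ (ψ v) (ψ w) := by
      rw [e1, inner_sub_left, inner_smul_left, real_inner_self_eq_norm_sq]
      simp only [conj_trivial]
      field_simp; ring
    refine hA _ _ ?_ ?_
    · rw [e1]
      have h3 : ‖(2 / ‖ψ w‖ ^ 2 * inner ℝ (ψ v) (ψ w)) • ψ w - ψ v‖ ^ 2 = ‖ψ v‖ ^ 2 := by
        rw [norm_sub_sq_real, norm_smul, inner_smul_left, real_inner_comm (ψ v) (ψ w), mul_pow,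
          Real.norm_eq_abs, sq_abs]
        simp only [conj_trivial]
        field_simp; ring
      exact (sq_eq_sq₀ (norm_nonneg _) (norm_nonneg _)).1 h3
    · rw [hw, hin, hw]
  · rw [hRv, hw w, real_inner_self_eq_norm_sq]
    have : 2 / ‖ψ w‖ ^ 2 * ‖ψ w‖ ^ 2 = 2 := by field_simp
    rw [this, two_smul]; abel
  · intro v hv
    rw [hRv, hv]
    simp

end Pool.Agent.H87Star
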