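import Mathlib
import Pool.Agent.H87Star.Local

set_option autoImplicit false

/-! Local rigidity of the axis: main statement. -/

namespace Pool.Agent.H87Star

open Set Filter Topology

variable {X U : Type*} [NormedAddCommGroup X] [InnerProductSpace ℝ X] [FiniteDimensional ℝ X]
  [NormedAddCommGroup U] [InnerProductSpace ℝ U] [FiniteDimensional ℝ U]

/-- data of the axial section: profile function and absence of small periods -/
lemma section_profile {h : X → ℝ} (hh : IsGauge h) {eX u1 : X} (heX : ‖eX‖ = 1) (hu1 : ‖u1‖ = 1)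
    (hue : inner ℝ u1 eX = 0) (hA : Axial h eX) (hQ : ¬ Quad h eX)
    {b : X →ₗ[ℝ] X →ₗ[ℝ] ℝ} (hs : ∀ v w, b v w = b w v) (hp : ∀ v, v ≠ 0 → 0 < b v v)
    {A C : ℝ} (hA0 : 0 < A) (hC0 : 0 < C)
    (h1 : ∀ v, b v v = A * inner ℝ v eX ^ 2 + C * (‖v‖ ^ 2 - inner ℝ v eX ^ 2))
    (h2 : ∀ v, b v eX = A * inner ℝ v eX) :
    ∃ (g : ℝ → ℝ) (γ₀ : ℝ), 0 < γ₀ ∧ (∀ γ, 0 < γ → γ < γ₀ → ∃ x, g (x + γ) ≠ g x) ∧
      ∀ v ϑ, b v v = 1 → b v eX = Real.sqrt A * Real.cos ϑ → h v = g ϑ := by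
  have hee : inner ℝ eX eX = (1:ℝ) := by rw [real_inner_self_eq_norm_sq, heX, one_pow]
  have hbee : b eX eX = A := by rw [h2, hee, mul_one]
  set α := Real.sqrt A with hα
  have hα0 : 0 < α := Real.sqrt_pos.2 hA0
  have hα2 : α ^ 2 = A := Real.sq_sqrt hA0.le
  set κ := Real.sqrt C with hκ
  have hκ0 : 0 < κ := Real.sqrt_pos.2 hC0
  have hκ2 : κ ^ 2 = C := Real.sq_sqrt hC0.le
  set Z : ℝ → X := fun ϑ => (Real.cos ϑ / α) • eX + (Real.sin ϑ / κ) • u1 with hZ
  have hZi : ∀ ϑ, inner ℝ (Z ϑ) eX = Real.cos ϑ / α := fun ϑ => inner_combo heX hue _ _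
  have hZn : ∀ ϑ, ‖Z ϑ‖ ^ 2 = (Real.cos ϑ / α) ^ 2 + (Real.sin ϑ / κ) ^ 2 :=
    fun ϑ => norm_combo heX hu1 hue _ _
  have hZZ : ∀ ϑ, b (Z ϑ) (Z ϑ) = 1 := by
    intro ϑ
    rw [h1, hZi, hZn, ← hα2, ← hκ2]
    have : α ^ 2 * (Real.cos ϑ / α) ^ 2 + κ ^ 2 * ((Real.cos ϑ / α) ^ 2 + (Real.sin ϑ / κ) ^ 2
        - (Real.cos ϑ / α) ^ 2) = Real.cos ϑ ^ 2 + Real.sin ϑ ^ 2 := by
      field_simp; ring
    rw [this, Real.cos_sq_add_sin_sq]
  have hZe : ∀ ϑ, b (Z ϑ) eX = α * Real.cos ϑ := by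
    intro ϑ
    rw [h2, hZi, ← hα2]; field_simp
  have hval : ∀ v ϑ, b v v = 1 → b v eX = α * Real.cos ϑ → h v = h (Z ϑ) := by
    intro v ϑ hv he
    exact axial_b hA hA0 hC0 h1 h2 (by rw [hv, hZZ]) (by rw [he, hZe])
  have hcont : Continuous (fun ϑ => h (Z ϑ)) := by
    refine hh.cont.comp ?_
    rw [hZ]; fun_prop
  by_cases hper : ∀ γ₀ > 0, ∃ γ, 0 < γ ∧ γ < γ₀ ∧ ∀ x, h (Z (x + γ)) = h (Z x)
  · exfalso
    have hconst := const_of_small_periods hcont hper
    apply hQ
    refine quad_of_const hh hp h1 (h (Z 0)) (fun v hv => ?_)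
    have h3 : |b v eX / α| ≤ 1 := by
      rw [abs_div, abs_of_pos hα0, div_le_one hα0]
      apply abs_le_of_sq_le_sq _ hα0.le
      have := form_cs b hs hp v eX
      rw [hv, hbee, one_mul] at this
      rw [hα2]; exact this
    rw [abs_le] at h3
    rw [hval v (Real.arccos (b v eX / α)) hv]
    · exact hconst _
    · rw [Real.cos_arccos h3.1 h3.2]; field_simp
  · push Not at hper
    obtain ⟨γ₀, h0, h3⟩ := hper
    exact ⟨fun ϑ => h (Z ϑ), γ₀, h0, h3, hval⟩

theorem local_axis (hdX : 2 ≤ Module.finrank ℝ X) {f : U → ℝ} (hf : IsGauge f) {e : U}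
    (he : ‖e‖ = 1) (hA : Axial f e) (hQ : ¬ Quad f e) {eX : X} (heX : ‖eX‖ = 1)
    (ι₀ : X →ₗᵢ[ℝ] U) (hι₀ : ι₀ eX = e) :
    ∃ ε > 0, ∀ (ι : X →ₗᵢ[ℝ] U) (ψ : X →ₗ[ℝ] U), ι eX = e → (∀ v, f (ψ v) = f (ι v)) →
      (∀ v, ‖ψ v - ι v‖ ≤ ε * ‖v‖) → ∃ c : ℝ, ψ eX = c • e := by
  have heX0 : eX ≠ 0 := by rintro rfl; simp at heX
  have hee : inner ℝ eX eX = (1:ℝ) := by rw [real_inner_self_eq_norm_sq, heX, one_pow]
  set h : X → ℝ := fun v => f (ι₀ v) with hdef
  have hh : IsGauge h := gauge_comp hf ι₀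
  have hhA : Axial h eX := axial_comp hA ι₀ hι₀
  -- a unit vector orthogonal to the axis
  obtain ⟨u1, hu1, hue⟩ : ∃ u1 : X, ‖u1‖ = 1 ∧ inner ℝ u1 eX = 0 := by
    have hk : LinearMap.ker (innerₗ X eX) ≠ ⊥ := by
      apply LinearMap.ker_ne_bot_of_finrank_lt
      rw [Module.finrank_self]; omega
    obtain ⟨u, hu, hu0⟩ := Submodule.exists_mem_ne_zero_of_ne_bot hk
    rw [LinearMap.mem_ker, innerₗ_apply_apply] at hu
    have hn : 0 < ‖u‖ := norm_pos_iff.2 hu0
    refine ⟨‖u‖⁻¹ • u, ?_, ?_⟩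
    · rw [norm_smul, norm_inv, norm_norm, inv_mul_cancel₀ hn.ne']
    · rw [inner_smul_left, real_inner_comm, hu, mul_zero]
  set q : U := ι₀ u1 with hq
  have hqn : ‖q‖ = 1 := by rw [hq, ι₀.norm_map, hu1]
  have hqe : inner ℝ q e = 0 := by rw [hq, ← hι₀, ι₀.inner_map_map, hue]
  have hhQ : ¬ Quad h eX := by
    rintro ⟨α, β, hab⟩
    apply hQ
    refine ⟨α, β, fun v => ?_⟩
    have h2 := norm_sq_ge he v
    have h3 : f v = f (inner ℝ v e • e + Real.sqrt (‖v‖ ^ 2 - inner ℝ v e ^ 2) • q) :=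
      axial_profile he hqn hqe hA v rfl (Real.sqrt_nonneg _) (by rw [Real.sq_sqrt h2]; ring)
    have h4 : f v = h (inner ℝ v e • eX + Real.sqrt (‖v‖ ^ 2 - inner ℝ v e ^ 2) • u1) := by
      rw [h3, hdef]
      show _ = f (ι₀ _)
      rw [map_add, map_smul, map_smul, hι₀]
    rw [h4, hab, inner_combo heX hue, norm_combo heX hu1 hue, Real.sq_sqrt h2]
    ring
  obtain ⟨b, hs, hp, hb⟩ := exists_form hh
  obtain ⟨A, C, hA0, hC0, h1, h2⟩ := form_axial heX hhA b hs hp hb
  obtain ⟨g, γ₀, hγ₀, hnp, hval⟩ := section_profile hh heX hu1 hue hhA hhQ hs hp hA0 hC0 h1 h2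
  have hbee : b eX eX = A := by rw [h2, hee, mul_one]
  set α := Real.sqrt A with hα
  have hα0 : 0 < α := Real.sqrt_pos.2 hA0
  have hα2 : α ^ 2 = A := Real.sq_sqrt hA0.le
  -- closeness of the axis
  set γ₁ := min (γ₀ / 2) (Real.pi / 2) with hγ₁
  have hγ₁0 : 0 < γ₁ := lt_min (by positivity) (by positivity)
  have hγ₁π : γ₁ ≤ Real.pi / 2 := min_le_right _ _
  have hcos1 : Real.cos γ₁ < 1 := by
    rw [← Real.cos_zero]
    exact Real.cos_lt_cos_of_nonneg_of_le_pi_div_two le_rfl hγ₁π hγ₁0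
  obtain ⟨ρ, hρ0, hρ⟩ : ∃ ρ > 0, ∀ w : X, ‖w - eX‖ < ρ → Real.cos γ₁ < b w eX / (α * Real.sqrt (b w w)) := by
    have hbc : Continuous (fun w : X => b w eX) := by
      have : (fun w : X => b w eX) = fun w => A * inner ℝ w eX := by ext w; exact h2 w
      rw [this]; fun_prop
    have hbb : Continuous (fun w : X => b w w) := by
      have : (fun w : X => b w w) = fun w => A * inner ℝ w eX ^ 2 + C * (‖w‖ ^ 2 - inner ℝ w eX ^ 2) := by
        ext w; exact h1 w
      rw [this]; fun_prop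
    have hca : ContinuousAt (fun w : X => b w eX / (α * Real.sqrt (b w w))) eX := by
      refine ContinuousAt.div hbc.continuousAt ?_ ?_
      · exact (continuous_const.mul (Real.continuous_sqrt.comp hbb)).continuousAt
      · rw [hbee]; positivity
    have hv1 : b eX eX / (α * Real.sqrt (b eX eX)) = 1 := by
      rw [hbee, ← hα, ← sq, hα2, div_self hA0.ne']
    have hev : ∀ᶠ w in 𝓝 eX, Real.cos γ₁ < b w eX / (α * Real.sqrt (b w w)) := by
      apply hca.eventually (lt_mem_nhds _)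
      show Real.cos γ₁ < b eX eX / (α * Real.sqrt (b eX eX))
      rw [hv1]; exact hcos1
    rw [Metric.eventually_nhds_iff] at hev
    obtain ⟨ρ, hρ0, hρ⟩ := hev
    refine ⟨ρ, hρ0, fun w hw => hρ (by rw [dist_eq_norm]; exact hw)⟩
  refine ⟨min (1/2) (ρ / 8), lt_min (by norm_num) (by positivity), ?_⟩
  intro ι ψ hι hψ hclose
  set ε := min (1/2) (ρ / 8) with hε
  have hε1 : ε ≤ 1/2 := min_le_left _ _
  have hε2 : ε ≤ ρ / 8 := min_le_right _ _
  have hε0 : 0 < ε := lt_min (by norm_num) (by positivity)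
  -- values of h through ψ
  have hhψ : ∀ v, h v = f (ψ v) := by
    intro v
    rw [hψ]
    refine hA _ _ ?_ ?_
    · rw [ι₀.norm_map, ι.norm_map]
    · rw [← hι₀, ι₀.inner_map_map, hι₀, ← hι, ι.inner_map_map]
  have hlow : ∀ v, (1 - ε) * ‖v‖ ≤ ‖ψ v‖ := by
    intro v
    have h3 := hclose v
    have h4 : ‖ι v‖ ≤ ‖ψ v‖ + ‖ψ v - ι v‖ := by
      have := norm_sub_le (ψ v) (ψ v - ι v)
      simpa using this
    rw [ι.norm_map] at h4
    nlinarith
  have hψe : ‖ψ eX - e‖ ≤ ε := by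
    have := hclose eX
    rw [hι, heX, mul_one] at this
    exact this
  -- the projection of the axis
  obtain ⟨w, hw⟩ : ∃ w, ψ w = (LinearMap.range ψ).starProjection e := by
    have := Submodule.starProjection_apply_mem (LinearMap.range ψ) e
    exact LinearMap.mem_range.1 this
  have hwi : ∀ v, inner ℝ (ψ v) e = inner ℝ (ψ v) (ψ w) := by
    intro v
    have h3 := Submodule.starProjection_inner_eq_zero (K := LinearMap.range ψ) e (ψ v)
      (LinearMap.mem_range_self ψ v)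
    rw [← hw, inner_sub_left, sub_eq_zero] at h3
    rw [real_inner_comm, h3, real_inner_comm]
  have hmin : ‖e - ψ w‖ ≤ ε := by
    have h3 : inner ℝ (e - ψ w) (ψ w - ψ eX) = 0 := by
      have h4 : inner ℝ (ψ (w - eX)) e = inner ℝ (ψ (w - eX)) (ψ w) := hwi _
      rw [← map_sub, real_inner_comm, inner_sub_right, h4, sub_self]
    have h5 : ‖e - ψ eX‖ ^ 2 = ‖e - ψ w‖ ^ 2 + ‖ψ w - ψ eX‖ ^ 2 := by
      have : e - ψ eX = (e - ψ w) + (ψ w - ψ eX) := by abel
      rw [this, norm_add_sq_real, h3]; ring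
    have h6 : ‖e - ψ w‖ ^ 2 ≤ ε ^ 2 := by
      have : ‖e - ψ eX‖ ^ 2 ≤ ε ^ 2 := by
        rw [norm_sub_rev]
        exact pow_le_pow_left₀ (norm_nonneg _) hψe 2
      nlinarith [sq_nonneg ‖ψ w - ψ eX‖]
    exact (abs_le_of_sq_le_sq' h6 hε0.le).2 |> fun h => by simpa using h
  have hψw0 : ψ w ≠ 0 := by
    intro h0
    rw [h0, sub_zero, he] at hmin
    linarith
  have hwclose : ‖w - eX‖ < ρ := by
    have h3 := hlow (w - eX)
    have h4 : ‖ψ (w - eX)‖ ≤ 2 * ε := by
      have : ψ (w - eX) = (ψ w - e) + (e - ψ eX) := by rw [map_sub]; abel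
      rw [this]
      refine (norm_add_le _ _).trans ?_
      rw [norm_sub_rev (ψ w) e, norm_sub_rev e (ψ eX)]
      linarith
    have h5 : (1/2) * ‖w - eX‖ ≤ 2 * ε := by
      nlinarith [norm_nonneg (w - eX)]
    linarith
  obtain ⟨R, hRf, hRw, hRn⟩ := section_reflection hA ψ w hψw0 hwi
  have hRh : ∀ v, h (R v) = h v := by
    intro v; rw [hhψ, hhψ, hRf]
  have hRb := hb R hRh
  have hw0 : w ≠ 0 := by
    rintro rfl; exact hψw0 (map_zero ψ)
  have hbww := hp w hw0
  have horth : ∀ v, inner ℝ (ψ v) e = 0 → b v w = 0 := by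
    intro v hv
    have h3 := hRb v w
    rw [hRn v hv, hRw, map_neg, LinearMap.neg_apply] at h3
    linarith
  have hnw : inner ℝ (ψ w) e = ‖ψ w‖ ^ 2 := by rw [hwi, real_inner_self_eq_norm_sq]
  have hnw0 : 0 < ‖ψ w‖ ^ 2 := by
    have := norm_pos_iff.2 hψw0; positivity
  have hrel : ∀ v, inner ℝ (ψ v) e * b w w = b v w * ‖ψ w‖ ^ 2 := by
    intro v
    have h3 := horth (v - (inner ℝ (ψ v) e / ‖ψ w‖ ^ 2) • w) (by
      rw [map_sub, map_smul, inner_sub_left, inner_smul_left, hnw]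
      simp only [conj_trivial]
      field_simp; ring)
    rw [map_sub, LinearMap.sub_apply, map_smul, LinearMap.smul_apply, smul_eq_mul] at h3
    field_simp at h3
    linarith
  have hRv : ∀ v, R v = (2 * b v w / b w w) • w - v := by
    intro v
    set τ := b v w / b w w with hτ
    have h3 : inner ℝ (ψ (v - τ • w)) e = 0 := by
      rw [map_sub, map_smul, inner_sub_left, inner_smul_left, hnw]
      simp only [conj_trivial]
      have := hrel v
      rw [hτ]; field_simp; linarith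
    have h4 := hRn _ h3
    rw [map_sub, map_smul, hRw] at h4
    have h5 : R v = τ • w + (τ • w - v) := by
      have : R v = (R v - τ • w) + τ • w := by abel
      rw [this, h4]; abel
    rw [h5, hτ, mul_div_assoc, two_mul, add_smul]; abel
  by_cases hpar : ∃ t : ℝ, w = t • eX
  · -- the section is axial in the right way
    obtain ⟨t, ht⟩ := hpar
    have ht0 : t ≠ 0 := by
      rintro rfl; exact hw0 (by rw [ht, zero_smul])
    have hbu : b u1 w = 0 := by
      rw [ht, map_smul, smul_eq_mul, h2, hue]; ring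
    have hlu : inner ℝ (ψ u1) e = 0 := by
      have h3 := hrel u1
      rw [hbu, zero_mul] at h3
      rcases mul_eq_zero.1 h3 with h | h
      · exact h
      · exact absurd h hbww.ne'
    have hnu : ‖ψ u1‖ = 1 := by
      have h3 : f (ψ u1) = f ((0:ℝ) • e + ‖ψ u1‖ • q) :=
        axial_profile he hqn hqe hA (ψ u1) hlu (norm_nonneg _) (by ring)
      rw [zero_smul, zero_add, hf.hom _ (norm_nonneg _)] at h3
      have h4 : f (ψ u1) = f q := by rw [← hhψ]
      rw [h4] at h3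
      have h5 : 0 < f q := hf.pos q (by
        intro h0; rw [h0, norm_zero] at hqn; exact zero_ne_one hqn)
      have h6 : (‖ψ u1‖ - 1) * f q = 0 := by linarith
      rcases mul_eq_zero.1 h6 with h | h
      · linarith
      · exact absurd h h5.ne'
    have hψeX : ψ eX = t⁻¹ • ψ w := by
      rw [ht, map_smul, smul_smul, inv_mul_cancel₀ ht0, one_smul]
    have hue2 : inner ℝ (ψ u1) (ψ eX) = 0 := by
      rw [hψeX, inner_smul_right, ← hwi, hlu, mul_zero]
    set σ := inner ℝ (ψ eX) e with hσ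
    have hσ0 : 0 < σ := by
      have h3 : inner ℝ (ψ eX - e) e + 1 = σ := by
        rw [inner_sub_left, real_inner_self_eq_norm_sq, he]; ring
      have h4 := abs_real_inner_le_norm (ψ eX - e) e
      rw [he, mul_one] at h4
      have h5 := neg_abs_le (inner ℝ (ψ eX - e) e)
      linarith
    have hδ := norm_sq_ge he (ψ eX)
    rw [← hσ] at hδ
    have hz := iterate_zero hf he hqn hqe hA hQ hδ hσ0 (fun r s hr => by
      have h3 : f (s • e + r • q) = h (s • eX + r • u1) := by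
        rw [hdef]
        show _ = f (ι₀ _)
        rw [map_add, map_smul, map_smul, hι₀]
      rw [h3, hhψ]
      refine axial_profile he hqn hqe hA _ ?_ (Real.sqrt_nonneg _) ?_
      · rw [map_add, map_smul, map_smul, inner_add_left, inner_smul_left, inner_smul_left, hlu]
        simp only [conj_trivial, mul_zero, add_zero]
        rw [← hσ]; ring
      · rw [Real.sq_sqrt (by positivity), map_add, map_smul, map_smul, norm_add_sq_real,
          norm_smul, norm_smul, inner_smul_left, inner_smul_right, real_inner_comm, hue2, hnu,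
          mul_pow, mul_pow, Real.norm_eq_abs, Real.norm_eq_abs, sq_abs, sq_abs]
        simp only [conj_trivial]
        ring)
    refine ⟨σ, ?_⟩
    have h3 : ‖ψ eX - σ • e‖ ^ 2 = 0 := by
      rw [norm_sub_sq_real, inner_smul_right, ← hσ, norm_smul, he, mul_one, Real.norm_eq_abs, sq_abs]
      linarith
    have h4 : ‖ψ eX - σ • e‖ = 0 := by
      rwa [sq_eq_zero_iff] at h3
    exact sub_eq_zero.1 (norm_eq_zero.1 h4)
  · -- otherwise there is a small period
    exfalso
    set β := Real.sqrt (b w w) with hβ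
    have hβ0 : 0 < β := Real.sqrt_pos.2 hbww
    have hβ2 : β ^ 2 = b w w := Real.sq_sqrt hbww.le
    set c := b w eX / (α * β) with hc
    have hc1 : Real.cos γ₁ < c := hρ w hwclose
    have hc0 : 0 ≤ c := (Real.cos_nonneg_of_mem_Icc ⟨by linarith [Real.pi_pos], hγ₁π⟩).trans hc1.le
    have hc2 : c < 1 := by
      have hcs := form_cs b hs hp w eX
      rw [hbee, ← hβ2, ← hα2] at hcs
      have h3 : c ≤ 1 := by
        rw [hc, div_le_one (by positivity)]
        have : b w eX ^ 2 ≤ (α * β) ^ 2 := by rw [mul_pow]; linarith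
        exact (abs_le_of_sq_le_sq' this (by positivity)).2
      refine lt_of_le_of_ne h3 (fun heq => hpar ?_)
      have h4 : b w eX = α * β := by
        rw [hc, div_eq_one_iff_eq (by positivity)] at heq; exact heq
      have h5 : b w eX ^ 2 = b w w * b eX eX := by
        rw [h4, hbee, ← hβ2, ← hα2]; ring
      exact ⟨_, form_cs_eq b hs hp heX0 h5⟩
    set γ := Real.arccos c with hγ
    have hγ0 : 0 < γ := Real.arccos_pos.2 hc2
    have hcosγ : Real.cos γ = c := Real.cos_arccos (by linarith) hc2.le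
    have hγγ₁ : γ < γ₁ := by
      by_contra hge
      push Not at hge
      have : Real.cos γ ≤ Real.cos γ₁ :=
        Real.cos_le_cos_of_nonneg_of_le_pi hγ₁0.le (Real.arccos_le_pi c) hge
      linarith
    have hsin0 : 0 < Real.sin γ := Real.sin_pos_of_pos_of_lt_pi hγ0 (by
      linarith [Real.pi_pos])
    have hbew : b eX w = α * β * c := by
      rw [hs, hc]; field_simp
    -- the orthonormal pair in the plane of the two axes
    set Z : ℝ → X := fun ϑ => ((Real.cos ϑ - Real.sin ϑ * c / Real.sin γ) / α) • eX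
      + (Real.sin ϑ / (Real.sin γ * β)) • w with hZ
    have hbwe : b w eX = α * β * c := by rw [hc]; field_simp
    have hZe : ∀ ϑ, b (Z ϑ) eX = α * Real.cos ϑ := by
      intro ϑ
      simp only [hZ, map_add, map_smul, LinearMap.add_apply, LinearMap.smul_apply, smul_eq_mul,
        hbee, hbwe]
      rw [← hα2]; field_simp; ring
    have hZw : ∀ ϑ, b (Z ϑ) w = β * Real.cos (ϑ - γ) := by
      intro ϑ
      simp only [hZ, map_add, map_smul, LinearMap.add_apply, LinearMap.smul_apply, smul_eq_mul,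
        hbew]
      rw [← hβ2, Real.cos_sub, hcosγ]
      have hsc : Real.sin γ ^ 2 = 1 - c ^ 2 := by
        rw [Real.sin_sq, hcosγ]
      field_simp
      linear_combination (-Real.sin ϑ) * hsc
    have hZZ : ∀ ϑ, b (Z ϑ) (Z ϑ) = 1 := by
      intro ϑ
      have e1 : b (Z ϑ) (Z ϑ) = ((Real.cos ϑ - Real.sin ϑ * c / Real.sin γ) / α) * b (Z ϑ) eX
          + (Real.sin ϑ / (Real.sin γ * β)) * b (Z ϑ) w := by
        have e0 : Z ϑ = ((Real.cos ϑ - Real.sin ϑ * c / Real.sin γ) / α) • eX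
          + (Real.sin ϑ / (Real.sin γ * β)) • w := rfl
        have e00 : ∀ y : X →ₗ[ℝ] ℝ, y (Z ϑ) = ((Real.cos ϑ - Real.sin ϑ * c / Real.sin γ) / α) * y eX
          + (Real.sin ϑ / (Real.sin γ * β)) * y w := by
          intro y
          rw [e0, map_add, map_smul, map_smul, smul_eq_mul, smul_eq_mul]
        exact e00 (b (Z ϑ))
      rw [e1, hZe, hZw, Real.cos_sub, hcosγ]
      field_simp
      linear_combination (Real.sin γ) * (Real.cos_sq_add_sin_sq ϑ)
    have hsymm : ∀ ϑ, g (2 * γ - ϑ) = g ϑ := by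
      intro ϑ
      rw [← hval (Z ϑ) ϑ (hZZ ϑ) (hZe ϑ), ← hval (R (Z ϑ)) (2 * γ - ϑ)]
      · exact hRh _
      · rw [hRb, hZZ]
      · rw [hRv, map_sub, LinearMap.sub_apply, map_smul, LinearMap.smul_apply, smul_eq_mul, hZe,
          hZw, hbwe, ← hβ2]
        have : Real.cos (2 * γ - ϑ) = 2 * Real.cos (ϑ - γ) * c - Real.cos ϑ := by
          have e2 : 2 * γ - ϑ = γ - (ϑ - γ) := by ring
          have e3 : ϑ = γ + (ϑ - γ) := by ring
          rw [e2, Real.cos_sub]
          conv_rhs => rw [e3, Real.cos_add]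
          rw [show γ + (ϑ - γ) - γ = ϑ - γ by ring, hcosγ]
          ring
        rw [this]; field_simp
    have heven : ∀ ϑ, g (-ϑ) = g ϑ := by
      intro ϑ
      rw [← hval (Z ϑ) ϑ (hZZ ϑ) (hZe ϑ), ← hval (Z ϑ) (-ϑ) (hZZ ϑ) (by rw [Real.cos_neg, hZe])]
    obtain ⟨x, hx⟩ := hnp (2 * γ) (by positivity) (by
      have : γ₁ ≤ γ₀ / 2 := min_le_left _ _
      linarith)
    apply hx
    have h3 := hsymm (-x)
    rw [heven, sub_neg_eq_add, add_comm] at h3
    exact h3

end Pool.Agent.H87Star
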