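import Mathlib
import Pool.Agent.H87Star.LocalAxis

set_option autoImplicit false

/-! Global argument: all hyperplane sections linearly equivalent to an axial gauge. -/

namespace Pool.Agent.H87Star

open Set Filter Topology

variable {V U : Type*} [NormedAddCommGroup V] [InnerProductSpace ℝ V]
  [NormedAddCommGroup U] [InnerProductSpace ℝ U]

/-- `L` identifies `f₀` with the section of `f` by the hyperplane orthogonal to `x`. -/
def Sec (f : V → ℝ) (f₀ : U → ℝ) (x : V) (L : U →ₗ[ℝ] V) : Prop :=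
  (∀ v, inner ℝ x (L v) = 0) ∧ ∀ v, f (L v) = f₀ v

lemma Sec.smul {f : V → ℝ} {f₀ : U → ℝ} {x : V} {L : U →ₗ[ℝ] V} (h : Sec f f₀ x L) (t : ℝ) :
    Sec f f₀ (t • x) L :=
  ⟨fun v => by rw [inner_smul_left, h.1 v, mul_zero], h.2⟩

variable [FiniteDimensional ℝ V] [FiniteDimensional ℝ U]

lemma Sec.injective {f : V → ℝ} {f₀ : U → ℝ} {x : V} {L : U →ₗ[ℝ] V} (h : Sec f f₀ x L)
    (hf : IsGauge f) (hf₀ : IsGauge f₀) : Function.Injective L :=
  injective_of_comp hf₀ hf.zero L h.2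

lemma Sec.mem_range {f : V → ℝ} {f₀ : U → ℝ} {x : V} {L : U →ₗ[ℝ] V} (h : Sec f f₀ x L)
    (hf : IsGauge f) (hf₀ : IsGauge f₀) (hx : x ≠ 0)
    (hd : Module.finrank ℝ V = Module.finrank ℝ U + 1) {z : V} (hz : inner ℝ x z = 0) :
    ∃ v, L v = z := by
  have h1 : LinearMap.range L ≤ (ℝ ∙ x)ᗮ := by
    rintro _ ⟨v, rfl⟩
    rw [Submodule.mem_orthogonal_singleton_iff_inner_right]
    exact h.1 v
  have h2 : Module.finrank ℝ (LinearMap.range L) = Module.finrank ℝ U :=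
    LinearMap.finrank_range_of_inj (h.injective hf hf₀)
  have h3 : Module.finrank ℝ (ℝ ∙ x)ᗮ = Module.finrank ℝ U := by
    have h4 := Submodule.finrank_add_finrank_orthogonal (ℝ ∙ x)
    rw [finrank_span_singleton hx] at h4
    omega
  have h5 : LinearMap.range L = (ℝ ∙ x)ᗮ :=
    Submodule.eq_of_le_of_finrank_eq h1 (by rw [h2, h3])
  have h6 : z ∈ LinearMap.range L := by
    rw [h5, Submodule.mem_orthogonal_singleton_iff_inner_right]
    exact hz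
  exact LinearMap.mem_range.1 h6

/-- factor a map with values in a section through the section -/
lemma Sec.factor {f : V → ℝ} {f₀ : U → ℝ} {x : V} {L : U →ₗ[ℝ] V} (h : Sec f f₀ x L)
    (hf : IsGauge f) (hf₀ : IsGauge f₀) (hx : x ≠ 0)
    (hd : Module.finrank ℝ V = Module.finrank ℝ U + 1)
    {Y : Type*} [AddCommGroup Y] [Module ℝ Y] (M : Y →ₗ[ℝ] V) (hM : ∀ v, inner ℝ x (M v) = 0) :
    ∃ g : Y →ₗ[ℝ] U, ∀ v, L (g v) = M v := by
  have hinj := h.injective hf hf₀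
  have hmem : ∀ v, M v ∈ LinearMap.range L := fun v => by
    obtain ⟨w, hw⟩ := h.mem_range hf hf₀ hx hd (hM v)
    exact ⟨w, hw⟩
  refine ⟨(LinearEquiv.ofInjective L hinj).symm.toLinearMap ∘ₗ (M.codRestrict _ hmem), ?_⟩
  intro v
  have h1 : (LinearEquiv.ofInjective L hinj) ((LinearEquiv.ofInjective L hinj).symm
      (M.codRestrict _ hmem v)) = M.codRestrict _ hmem v := LinearEquiv.apply_symm_apply _ _
  have h2 := congrArg Subtype.val h1
  rw [LinearEquiv.ofInjective_apply] at h2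
  exact h2

lemma Sec.axis_unique {f : V → ℝ} {f₀ : U → ℝ} {x : V} {L L' : U →ₗ[ℝ] V} (h : Sec f f₀ x L)
    (h' : Sec f f₀ x L')
    (hf : IsGauge f) (hf₀ : IsGauge f₀) (hx : x ≠ 0)
    (hd : Module.finrank ℝ V = Module.finrank ℝ U + 1) (hdim : 3 ≤ Module.finrank ℝ U)
    {e : U} (he : ‖e‖ = 1) (hA : Axial f₀ e) (hQ : ¬ Quad f₀ e) : ∃ c : ℝ, L' e = c • L e := by
  obtain ⟨g, hg⟩ := h.factor hf hf₀ hx hd L' h'.1
  obtain ⟨c, hc⟩ := sym_axis hdim hf₀ he hA hQ g (fun v => by rw [← h.2, hg, h'.2])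
  exact ⟨c, by rw [← hg, hc, map_smul]⟩

lemma sec_bounds {f : V → ℝ} {f₀ : U → ℝ} (hf : IsGauge f) (hf₀ : IsGauge f₀) :
    ∃ c C : ℝ, 0 < c ∧ 0 < C ∧ ∀ (x : V) (L : U →ₗ[ℝ] V), Sec f f₀ x L →
      ∀ v, c * ‖v‖ ≤ ‖L v‖ ∧ ‖L v‖ ≤ C * ‖v‖ := by
  obtain ⟨c1, C1, hc1, hC1, h1⟩ := hf.bounds
  obtain ⟨c2, C2, hc2, hC2, h2⟩ := hf₀.bounds
  refine ⟨c2 / C1, C2 / c1, by positivity, by positivity, ?_⟩
  intro x L hL v
  have h3 := h1 (L v)
  rw [hL.2] at h3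
  have h4 := h2 v
  constructor
  · rw [div_mul_eq_mul_div, div_le_iff₀ hC1]
    linarith [h3.2, h4.1, mul_comm C1 ‖L v‖]
  · rw [div_mul_eq_mul_div, le_div_iff₀ hc1]
    linarith [h3.1, h4.2, mul_comm c1 ‖L v‖]

lemma sec_compact {f : V → ℝ} {f₀ : U → ℝ} (hf : IsGauge f) (hf₀ : IsGauge f₀)
    {x : ℕ → V} {x₀ : V} (hx : Tendsto x atTop (𝓝 x₀)) (L : ℕ → U →ₗ[ℝ] V)
    (hL : ∀ n, Sec f f₀ (x n) (L n)) :
    ∃ (L₀ : U →ₗ[ℝ] V) (φ : ℕ → ℕ), StrictMono φ ∧ Sec f f₀ x₀ L₀ ∧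
      (∀ v, Tendsto (fun n => L (φ n) v) atTop (𝓝 (L₀ v))) ∧
      ∀ δ > 0, ∀ᶠ n in atTop, ∀ v, ‖L (φ n) v - L₀ v‖ ≤ δ * ‖v‖ := by
  obtain ⟨c, C, hc, hC, hb⟩ := sec_bounds hf hf₀
  set T : ℕ → U →L[ℝ] V := fun n => LinearMap.toContinuousLinearMap (L n) with hT
  have hTv : ∀ n v, T n v = L n v := fun n v => rfl
  have hTb : ∀ n, T n ∈ Metric.closedBall (0 : U →L[ℝ] V) C := by
    intro n
    rw [mem_closedBall_zero_iff]
    refine ContinuousLinearMap.opNorm_le_bound _ hC.le (fun v => ?_)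
    rw [hTv]
    exact (hb _ _ (hL n) v).2
  obtain ⟨T₀, -, φ, hφ, hlim⟩ := (isCompact_closedBall (0 : U →L[ℝ] V) C).tendsto_subseq hTb
  have hpt : ∀ v, Tendsto (fun n => L (φ n) v) atTop (𝓝 (T₀ v)) := by
    intro v
    have h1 : Continuous (fun S : U →L[ℝ] V => S v) := by fun_prop
    exact (h1.tendsto T₀).comp hlim
  refine ⟨(T₀ : U →ₗ[ℝ] V), φ, hφ, ⟨?_, ?_⟩, hpt, ?_⟩
  · intro v
    have h1 : Tendsto (fun n => inner ℝ (x (φ n)) (L (φ n) v)) atTop (𝓝 (inner ℝ x₀ (T₀ v))) :=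
      (hx.comp hφ.tendsto_atTop).inner (hpt v)
    have h2 : Tendsto (fun n => inner ℝ (x (φ n)) (L (φ n) v)) atTop (𝓝 (0:ℝ)) := by
      refine tendsto_const_nhds.congr (fun n => ((hL (φ n)).1 v).symm)
    exact tendsto_nhds_unique h1 h2
  · intro v
    have h1 : Tendsto (fun n => f (L (φ n) v)) atTop (𝓝 (f (T₀ v))) :=
      (hf.cont.tendsto _).comp (hpt v)
    have h2 : Tendsto (fun n => f (L (φ n) v)) atTop (𝓝 (f₀ v)) := by
      refine tendsto_const_nhds.congr (fun n => ((hL (φ n)).2 v).symm)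
    exact tendsto_nhds_unique h1 h2
  · intro δ hδ
    have h1 : Tendsto (fun n => ‖T (φ n) - T₀‖) atTop (𝓝 0) := by
      rw [← tendsto_iff_norm_sub_tendsto_zero]; exact hlim
    filter_upwards [h1.eventually (gt_mem_nhds hδ)] with n hn v
    have h2 := (T (φ n) - T₀).le_opNorm v
    rw [sub_apply, hTv] at h2
    exact h2.trans (mul_le_mul_of_nonneg_right hn.le (norm_nonneg _))

/-- an isometry of a hyperplane through the axis into a given hyperplane through the axis -/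
lemma exists_iso {e u : U} (hu : ‖u‖ = 1) (hue : inner ℝ u e = 0) (w : U)
    (hw : inner ℝ w e = 0) (heX : e ∈ (ℝ ∙ u)ᗮ) :
    ∃ ι : (ℝ ∙ u)ᗮ →ₗᵢ[ℝ] U, ι ⟨e, heX⟩ = e ∧ ∀ v, inner ℝ (ι v) w = 0 := by
  by_cases hw0 : w = 0
  · subst hw0
    exact ⟨(ℝ ∙ u)ᗮ.subtypeₗᵢ, rfl, fun v => inner_zero_right _⟩
  have hn : 0 < ‖w‖ := norm_pos_iff.2 hw0
  set w' : U := ‖w‖⁻¹ • w with hw'
  have hw'n : ‖w'‖ = 1 := by rw [hw', norm_smul, norm_inv, norm_norm, inv_mul_cancel₀ hn.ne']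
  have hw'e : inner ℝ w' e = 0 := by rw [hw', inner_smul_left, hw, mul_zero]
  have hww : w = ‖w‖ • w' := by rw [hw', smul_smul, mul_inv_cancel₀ hn.ne', one_smul]
  set R := (ℝ ∙ (u - w'))ᗮ.reflection with hR
  have hRe : R e = e := by
    rw [hR, Submodule.reflection_eq_self_iff, Submodule.mem_orthogonal_singleton_iff_inner_right,
      inner_sub_left, hue, hw'e, sub_zero]
  have hRu : R u = w' := Submodule.reflection_sub (by rw [hu, hw'n])
  refine ⟨R.toLinearIsometry.comp (ℝ ∙ u)ᗮ.subtypeₗᵢ, hRe, ?_⟩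
  intro v
  have h1 : inner ℝ (v : U) u = 0 := by
    have := v.2
    rw [Submodule.mem_orthogonal_singleton_iff_inner_left] at this
    exact this
  have h2 : (R.toLinearIsometry.comp (ℝ ∙ u)ᗮ.subtypeₗᵢ) v = R (v : U) := rfl
  rw [h2, hww, inner_smul_right, ← hRu, LinearIsometryEquiv.inner_map_map, h1, mul_zero]

/-- the axis of the nearby sections is the same -/
lemma axis_locally_constant {f : V → ℝ} {f₀ : U → ℝ} (hf : IsGauge f) (hf₀ : IsGauge f₀)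
    (hd : Module.finrank ℝ V = Module.finrank ℝ U + 1) (hdim : 3 ≤ Module.finrank ℝ U)
    {e : U} (he : ‖e‖ = 1) (hA : Axial f₀ e) (hQ : ¬ Quad f₀ e) {y : V} :
    ∃ δ > 0, ∀ (x x' : V) (L L' : U →ₗ[ℝ] V), x' ≠ 0 → inner ℝ x' y = 0 → Sec f f₀ x L →
      Sec f f₀ x' L' → (∃ c : ℝ, L e = c • y) → (∀ v, ‖L' v - L v‖ ≤ δ * ‖v‖) →
      ∃ c : ℝ, L' e = c • y := by
  have he0 : e ≠ 0 := by rintro rfl; simp at he
  obtain ⟨c, C, hc, hC, hb⟩ := sec_bounds (f := f) (f₀ := f₀) hf hf₀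
  -- a unit vector orthogonal to e
  obtain ⟨u, hu, hue⟩ : ∃ u : U, ‖u‖ = 1 ∧ inner ℝ u e = 0 := by
    have hk : LinearMap.ker (innerₗ U e) ≠ ⊥ := by
      apply LinearMap.ker_ne_bot_of_finrank_lt
      rw [Module.finrank_self]; omega
    obtain ⟨u, hu, hu0⟩ := Submodule.exists_mem_ne_zero_of_ne_bot hk
    rw [LinearMap.mem_ker, innerₗ_apply_apply] at hu
    have hn : 0 < ‖u‖ := norm_pos_iff.2 hu0
    refine ⟨‖u‖⁻¹ • u, ?_, ?_⟩
    · rw [norm_smul, norm_inv, norm_norm, inv_mul_cancel₀ hn.ne']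
    · rw [inner_smul_left, real_inner_comm, hu, mul_zero]
  have hu0 : u ≠ 0 := by rintro rfl; simp at hu
  have heX : e ∈ (ℝ ∙ u)ᗮ := by
    rw [Submodule.mem_orthogonal_singleton_iff_inner_right]; exact hue
  have hdX : 2 ≤ Module.finrank ℝ (ℝ ∙ u)ᗮ := by
    have h4 := Submodule.finrank_add_finrank_orthogonal (ℝ ∙ u)
    rw [finrank_span_singleton hu0] at h4
    omega
  obtain ⟨ε, hε, hloc⟩ := local_axis (X := (ℝ ∙ u)ᗮ) hdX hf₀ he hA hQ (eX := ⟨e, heX⟩)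
    (by exact he) (ℝ ∙ u)ᗮ.subtypeₗᵢ rfl
  refine ⟨ε * c, by positivity, ?_⟩
  rintro x x' L L' hx' hyx hL hL' ⟨a, ha⟩ hclose
  have hLe0 : L e ≠ 0 := by
    intro h0
    exact he0 (hL.injective hf hf₀ (by rw [h0, map_zero]))
  have ha0 : a ≠ 0 := by
    rintro rfl; exact hLe0 (by rw [ha, zero_smul])
  set w : U := LinearMap.adjoint L x' with hw
  have hwv : ∀ v, inner ℝ v w = inner ℝ (L v) x' := by
    intro v
    rw [hw, LinearMap.adjoint_inner_right]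
  have hwe : inner ℝ w e = 0 := by
    rw [real_inner_comm, hwv, ha, inner_smul_left, real_inner_comm, hyx, mul_zero]
  obtain ⟨ι, hιe, hιw⟩ := exists_iso hu hue w hwe heX
  obtain ⟨ψ, hψ⟩ := hL'.factor hf hf₀ hx' hd (L ∘ₗ ι.toLinearMap) (by
    intro v
    rw [real_inner_comm]
    have := hιw v
    rw [hwv] at this
    exact this)
  have hψ' : ∀ v, L' (ψ v) = L (ι v) := hψ
  obtain ⟨c', hc'⟩ := hloc ι ψ hιe (by
    intro v
    rw [← hL'.2, hψ', hL.2]) (by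
    intro v
    have h1 := (hb _ _ hL' (ψ v - ι v)).1
    have e1 : ‖L' (ψ v - ι v)‖ = ‖L' (ι v) - L (ι v)‖ := by
      rw [map_sub, hψ', norm_sub_rev]
    rw [e1] at h1
    have h2 := hclose (ι v)
    rw [ι.norm_map] at h2
    have h3 : c * ‖ψ v - ι v‖ ≤ c * (ε * ‖v‖) := by
      calc _ ≤ _ := h1
        _ ≤ _ := h2
        _ = _ := by ring
    exact le_of_mul_le_mul_left h3 hc)
  have h4 : L e = c' • L' e := by
    have : L' (ψ ⟨e, heX⟩) = L (ι ⟨e, heX⟩) := hψ' _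
    rw [hc', map_smul, hιe] at this
    exact this.symm
  have hc'0 : c' ≠ 0 := by
    rintro rfl; exact hLe0 (by rw [h4, zero_smul])
  refine ⟨c'⁻¹ * a, ?_⟩
  rw [mul_smul, ← ha, h4, smul_smul, inv_mul_cancel₀ hc'0, one_smul]

end Pool.Agent.H87Star
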