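import Mathlib
import Pool.Agent.H87Star.Global

set_option autoImplicit false

/-! Global argument, second part: the axis of a section is the axis of all sections through it. -/

namespace Pool.Agent.H87Star

open Set Filter Topology

variable {V U : Type*} [NormedAddCommGroup V] [InnerProductSpace ℝ V]
  [NormedAddCommGroup U] [InnerProductSpace ℝ U] [FiniteDimensional ℝ V] [FiniteDimensional ℝ U]

theorem axis_const {f : V → ℝ} {f₀ : U → ℝ} (hf : IsGauge f) (hf₀ : IsGauge f₀)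
    (hd : Module.finrank ℝ V = Module.finrank ℝ U + 1) (hdim : 3 ≤ Module.finrank ℝ U)
    {e : U} (he : ‖e‖ = 1) (hA : Axial f₀ e) (hQ : ¬ Quad f₀ e)
    (hall : ∀ x : V, x ≠ 0 → ∃ L : U →ₗ[ℝ] V, Sec f f₀ x L)
    {x₀ : V} (hx₀ : x₀ ≠ 0) {L₀ : U →ₗ[ℝ] V} (hL₀ : Sec f f₀ x₀ L₀)
    {x : V} (hx : x ≠ 0) (hxy : inner ℝ x (L₀ e) = 0) {L : U →ₗ[ℝ] V} (hL : Sec f f₀ x L) :
    ∃ c : ℝ, L e = c • L₀ e := by
  have he0 : e ≠ 0 := by rintro rfl; simp at he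
  set y := L₀ e with hy
  have hy0 : y ≠ 0 := by
    intro h0
    exact he0 (hL₀.injective hf hf₀ (by rw [← hy, h0, map_zero]))
  have hdY : Module.finrank ℝ (ℝ ∙ y)ᗮ = Module.finrank ℝ U := by
    have h4 := Submodule.finrank_add_finrank_orthogonal (ℝ ∙ y)
    rw [finrank_span_singleton hy0] at h4
    omega
  have hrank : 1 < Module.rank ℝ (ℝ ∙ y)ᗮ := by
    rw [← Module.finrank_eq_rank, hdY]
    have : 1 < Module.finrank ℝ U := by omega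
    exact_mod_cast this
  have hpre : IsPreconnected (Metric.sphere (0 : (ℝ ∙ y)ᗮ) 1) := isPreconnected_sphere hrank 0 1
  have : PreconnectedSpace (Metric.sphere (0 : (ℝ ∙ y)ᗮ) 1) :=
    isPreconnected_iff_preconnectedSpace.1 hpre
  have hne : ∀ s : Metric.sphere (0 : (ℝ ∙ y)ᗮ) 1, ((s : (ℝ ∙ y)ᗮ) : V) ≠ 0 := by
    intro s h0
    have h1 : ‖(s : (ℝ ∙ y)ᗮ)‖ = 1 := by
      have := s.2
      rwa [mem_sphere_zero_iff_norm] at this
    have h2 : (s : (ℝ ∙ y)ᗮ) = 0 := by ext; exact h0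
    rw [h2, norm_zero] at h1
    exact zero_ne_one h1
  have hperp : ∀ s : Metric.sphere (0 : (ℝ ∙ y)ᗮ) 1, inner ℝ ((s : (ℝ ∙ y)ᗮ) : V) y = 0 := by
    intro s
    have := (s : (ℝ ∙ y)ᗮ).2
    rwa [Submodule.mem_orthogonal_singleton_iff_inner_left] at this
  obtain ⟨δ, hδ, hloc⟩ := axis_locally_constant (y := y) hf hf₀ hd hdim he hA hQ
  set Z : Set (Metric.sphere (0 : (ℝ ∙ y)ᗮ) 1) :=
    {s | ∃ M : U →ₗ[ℝ] V, Sec f f₀ ((s : (ℝ ∙ y)ᗮ) : V) M ∧ ∃ c : ℝ, M e = c • y} with hZ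
  have hcoe : Continuous (fun s : Metric.sphere (0 : (ℝ ∙ y)ᗮ) 1 => ((s : (ℝ ∙ y)ᗮ) : V)) := by
    fun_prop
  have hZc : IsClosed Z := by
    apply IsSeqClosed.isClosed
    intro s s₀ hs hlim
    choose M hM c hc using hs
    have hx' : Tendsto (fun n => ((s n : (ℝ ∙ y)ᗮ) : V)) atTop (𝓝 ((s₀ : (ℝ ∙ y)ᗮ) : V)) :=
      (hcoe.tendsto s₀).comp hlim
    obtain ⟨M₀, φ, hφ, hM₀, hpt, -⟩ := sec_compact hf hf₀ hx' M hM
    refine ⟨M₀, hM₀, ?_⟩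
    have hcl : IsClosed ((ℝ ∙ y : Submodule ℝ V) : Set V) := Submodule.closed_of_finiteDimensional _
    have hmem : M₀ e ∈ ((ℝ ∙ y : Submodule ℝ V) : Set V) := by
      refine hcl.mem_of_tendsto (hpt e) (Eventually.of_forall (fun n => ?_))
      rw [hc]
      exact Submodule.smul_mem _ _ (Submodule.mem_span_singleton_self y)
    obtain ⟨c₀, hc₀⟩ := Submodule.mem_span_singleton.1 hmem
    exact ⟨c₀, hc₀.symm⟩
  have hZo : IsClosed Zᶜ := by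
    apply IsSeqClosed.isClosed
    intro s s₀ hs hlim hs₀
    have hx' : Tendsto (fun n => ((s n : (ℝ ∙ y)ᗮ) : V)) atTop (𝓝 ((s₀ : (ℝ ∙ y)ᗮ) : V)) :=
      (hcoe.tendsto s₀).comp hlim
    choose M hM using fun n => hall ((s n : (ℝ ∙ y)ᗮ) : V) (hne (s n))
    obtain ⟨M₀, φ, hφ, hM₀, -, hunif⟩ := sec_compact hf hf₀ hx' M hM
    obtain ⟨M', hM', c', hc'⟩ := hs₀
    obtain ⟨c, hc⟩ := hM'.axis_unique hM₀ hf hf₀ (hne s₀) hd hdim he hA hQ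
    obtain ⟨n, hn⟩ := (hunif δ hδ).exists
    apply hs (φ n)
    exact ⟨M (φ n), hM (φ n), hloc _ _ M₀ (M (φ n)) (hne _) (hperp _) hM₀ (hM (φ n))
      ⟨c * c', by rw [hc, hc', smul_smul]⟩ hn⟩
  have hclopen : IsClopen Z := ⟨hZc, by rw [← compl_compl Z]; exact hZo.isOpen_compl⟩
  -- normalised vectors
  have hmk : ∀ z : V, z ≠ 0 → inner ℝ z y = 0 →
      ∃ s : Metric.sphere (0 : (ℝ ∙ y)ᗮ) 1, ((s : (ℝ ∙ y)ᗮ) : V) = ‖z‖⁻¹ • z := by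
    intro z hz0 hzy
    have hzn : 0 < ‖z‖ := norm_pos_iff.2 hz0
    have h1 : ‖z‖⁻¹ • z ∈ (ℝ ∙ y)ᗮ := by
      rw [Submodule.mem_orthogonal_singleton_iff_inner_left, inner_smul_left, hzy, mul_zero]
    refine ⟨⟨⟨‖z‖⁻¹ • z, h1⟩, ?_⟩, rfl⟩
    rw [mem_sphere_zero_iff_norm, Submodule.coe_norm, norm_smul, norm_inv, norm_norm,
      inv_mul_cancel₀ hzn.ne']
  have hnonempty : Z.Nonempty := by
    obtain ⟨s, hs⟩ := hmk x₀ hx₀ (hL₀.1 e)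
    refine ⟨s, L₀, ?_, 1, by rw [one_smul]⟩
    rw [hs]; exact hL₀.smul _
  have huniv : Z = univ := hclopen.eq_univ hnonempty
  obtain ⟨s, hs⟩ := hmk x hx hxy
  have hsZ : s ∈ Z := by rw [huniv]; exact mem_univ s
  obtain ⟨M, hM, c, hc⟩ := hsZ
  have hLs : Sec f f₀ ((s : (ℝ ∙ y)ᗮ) : V) L := by rw [hs]; exact hL.smul _
  obtain ⟨c', hc'⟩ := hM.axis_unique hLs hf hf₀ (hne s) hd hdim he hA hQ
  exact ⟨c' * c, by rw [hc', hc, smul_smul]⟩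

/-- If all hyperplane sections are linearly equivalent to an axial gauge then this gauge is
quadratic. -/
theorem quad_of_sections {f : V → ℝ} {f₀ : U → ℝ} (hf : IsGauge f) (hf₀ : IsGauge f₀)
    (hd : Module.finrank ℝ V = Module.finrank ℝ U + 1) (hdim : 3 ≤ Module.finrank ℝ U)
    {e : U} (he : ‖e‖ = 1) (hA : Axial f₀ e)
    (hall : ∀ x : V, x ≠ 0 → ∃ L : U →ₗ[ℝ] V, Sec f f₀ x L) : Quad f₀ e := by
  by_contra hQ
  have he0 : e ≠ 0 := by rintro rfl; simp at he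
  have : Nontrivial V := by
    apply Module.nontrivial_of_finrank_pos (R := ℝ); omega
  obtain ⟨x₁, hx₁⟩ := exists_ne (0 : V)
  obtain ⟨L₁, hL₁⟩ := hall x₁ hx₁
  have hne : ∀ {x : V} {L : U →ₗ[ℝ] V}, Sec f f₀ x L → L e ≠ 0 := by
    intro x L hL h0
    exact he0 (hL.injective hf hf₀ (by rw [h0, map_zero]))
  obtain ⟨L₂, hL₂⟩ := hall (L₁ e) (hne hL₁)
  obtain ⟨x₃, hx₃, h31, h32⟩ : ∃ x : V, x ≠ 0 ∧ inner ℝ x (L₁ e) = 0 ∧ inner ℝ x (L₂ e) = 0 := by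
    set φ : V →ₗ[ℝ] ℝ × ℝ := (innerₗ V (L₁ e)).prod (innerₗ V (L₂ e)) with hφ
    have hk : LinearMap.ker φ ≠ ⊥ := by
      apply LinearMap.ker_ne_bot_of_finrank_lt
      rw [Module.finrank_prod, Module.finrank_self]
      omega
    obtain ⟨q, hq, hq0⟩ := Submodule.exists_mem_ne_zero_of_ne_bot hk
    have hq' : ((inner ℝ (L₁ e) q, inner ℝ (L₂ e) q) : ℝ × ℝ) = (0, 0) := hq
    rw [Prod.mk.injEq] at hq'
    exact ⟨q, hq0, by rw [real_inner_comm]; exact hq'.1, by rw [real_inner_comm]; exact hq'.2⟩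
  obtain ⟨L₃, hL₃⟩ := hall x₃ hx₃
  obtain ⟨c, hc⟩ := axis_const hf hf₀ hd hdim he hA hQ hall hx₁ hL₁ hx₃ h31 hL₃
  obtain ⟨c', hc'⟩ := axis_const hf hf₀ hd hdim he hA hQ hall (hne hL₁) hL₂ hx₃ h32 hL₃
  have h1 : inner ℝ (L₃ e) (L₃ e) = (0:ℝ) := by
    calc inner ℝ (L₃ e) (L₃ e) = inner ℝ (c • L₁ e) (c' • L₂ e) := by rw [← hc, ← hc']
      _ = 0 := by rw [inner_smul_left, inner_smul_right, hL₂.1 e, mul_zero, mul_zero]
  exact hne hL₃ (inner_self_eq_zero.1 h1)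

end Pool.Agent.H87Star
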