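import Mathlib
import Pool.Agent.H87Star.Axis

set_option autoImplicit false

/-! From quadratic sections to ellipsoids; star bodies and their gauges. -/

namespace Pool.Agent.H87Star

open Set Filter Topology

section linear

variable {V : Type*} [AddCommGroup V] [Module ℝ V] [FiniteDimensional ℝ V]

lemma exists_sub_ge (W : Submodule ℝ V) (m : ℕ) (h1 : Module.finrank ℝ W ≤ m)
    (h2 : m ≤ Module.finrank ℝ V) : ∃ S : Submodule ℝ V, W ≤ S ∧ Module.finrank ℝ S = m := by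
  induction m, h1 using Nat.le_induction with
  | base => exact ⟨W, le_rfl, rfl⟩
  | succ m hm ih =>
    obtain ⟨S, hWS, hS⟩ := ih (by omega)
    have hne : S ≠ ⊤ := by
      rintro rfl
      rw [finrank_top] at hS; omega
    obtain ⟨x, -, hx⟩ := SetLike.exists_of_lt (lt_top_iff_ne_top.2 hne)
    have hx0 : x ≠ 0 := by
      rintro rfl; exact hx S.zero_mem
    refine ⟨S ⊔ (ℝ ∙ x), hWS.trans le_sup_left, ?_⟩
    have h3 := Submodule.finrank_sup_add_finrank_inf_eq S (ℝ ∙ x)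
    have h4 : S ⊓ (ℝ ∙ x) = ⊥ := by
      rw [← disjoint_iff, Submodule.disjoint_span_singleton' hx0]
      exact hx
    rw [h4, finrank_bot, finrank_span_singleton hx0, hS] at h3
    omega

/-- a positive definite symmetric form has unit ball a linear image of the Euclidean ball -/
theorem exists_equiv_of_form {n : ℕ} (b : EuclideanSpace ℝ (Fin n) →ₗ[ℝ] EuclideanSpace ℝ (Fin n) →ₗ[ℝ] ℝ)
    (hs : ∀ v w, b v w = b w v) (hp : ∀ v, v ≠ 0 → 0 < b v v) :
    ∃ A : EuclideanSpace ℝ (Fin n) ≃ₗ[ℝ] EuclideanSpace ℝ (Fin n), ∀ x, b (A x) (A x) = ‖x‖ ^ 2 := by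
  have hB : LinearMap.IsSymm b := ⟨fun v w => by simpa using hs v w⟩
  obtain ⟨v, hv⟩ := LinearMap.BilinForm.exists_orthogonal_basis hB
  set v' : Module.Basis (Fin n) ℝ (EuclideanSpace ℝ (Fin n)) :=
    v.reindex (finCongr finrank_euclideanSpace_fin) with hv'
  have horth : ∀ i j, i ≠ j → b (v' i) (v' j) = 0 := by
    intro i j hij
    rw [hv', Module.Basis.reindex_apply, Module.Basis.reindex_apply]
    exact hv (fun h => hij (by simpa using h))
  have hpos : ∀ i, 0 < b (v' i) (v' i) := fun i => hp _ (v'.ne_zero i)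
  have hsq : ∀ i, 0 < Real.sqrt (b (v' i) (v' i)) := fun i => Real.sqrt_pos.2 (hpos i)
  set w : Module.Basis (Fin n) ℝ (EuclideanSpace ℝ (Fin n)) :=
    v'.isUnitSMul (w := fun i => (Real.sqrt (b (v' i) (v' i)))⁻¹)
      (fun i => (isUnit_iff_ne_zero.2 (inv_ne_zero (hsq i).ne'))) with hw
  have hwi : ∀ i, w i = (Real.sqrt (b (v' i) (v' i)))⁻¹ • v' i := by
    intro i; rw [hw, Module.Basis.isUnitSMul_apply]
  have hww : ∀ i j, b (w i) (w j) = if i = j then 1 else 0 := by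
    intro i j
    rw [hwi, hwi]
    simp only [map_smul, LinearMap.smul_apply, smul_eq_mul]
    by_cases hij : i = j
    · subst hij
      rw [if_pos rfl, ← mul_assoc, ← mul_inv, Real.mul_self_sqrt (hpos i).le,
        inv_mul_cancel₀ (hpos i).ne']
    · rw [horth i j hij, if_neg hij]; ring
  refine ⟨(EuclideanSpace.equiv (Fin n) ℝ).toLinearEquiv.trans w.equivFun.symm, fun x => ?_⟩
  have hA : ((EuclideanSpace.equiv (Fin n) ℝ).toLinearEquiv.trans w.equivFun.symm) x
      = ∑ i, x i • w i := by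
    rw [LinearEquiv.trans_apply, Module.Basis.equivFun_symm_apply]
    rfl
  rw [hA, EuclideanSpace.norm_sq_eq]
  simp only [map_sum, map_smul, LinearMap.sum_apply, LinearMap.smul_apply, smul_eq_mul, hww,
    mul_ite, mul_one, mul_zero, Finset.sum_ite_eq', Finset.mem_univ, if_true,
    Real.norm_eq_abs, sq_abs]
  refine Finset.sum_congr rfl (fun i _ => ?_)
  ring

end linear

section forms

variable {V U : Type*} [NormedAddCommGroup V] [InnerProductSpace ℝ V]
  [NormedAddCommGroup U] [InnerProductSpace ℝ U]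

/-- If any three vectors lie in the image of a linear map pulling `f` back to a quadratic gauge,
then `f ^ 2` is a quadratic form. -/
theorem form_of_quad_sections {f : V → ℝ} {f₀ : U → ℝ} {e : U} (hQ : Quad f₀ e)
    (h : ∀ v w z : V, ∃ L : U →ₗ[ℝ] V, (∃ a, L a = v) ∧ (∃ a, L a = w) ∧ (∃ a, L a = z) ∧
      ∀ u, f (L u) = f₀ u) :
    ∃ b : V →ₗ[ℝ] V →ₗ[ℝ] ℝ, (∀ v w, b v w = b w v) ∧ ∀ v, b v v = f v ^ 2 := by
  obtain ⟨α, β, hq⟩ := hQ
  set B₀ : U → U → ℝ := fun a c => α * inner ℝ a e * inner ℝ c e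
    + β * (inner ℝ a c - inner ℝ a e * inner ℝ c e) with hB₀
  set B : V → V → ℝ := fun v w => (f (v + w) ^ 2 - f v ^ 2 - f w ^ 2) / 2 with hB
  have hBB : ∀ (L : U →ₗ[ℝ] V), (∀ u, f (L u) = f₀ u) → ∀ a c, B (L a) (L c) = B₀ a c := by
    intro L hL a c
    have e1 : f (L a + L c) = f₀ (a + c) := by rw [← map_add, hL]
    simp only [hB, hB₀]
    rw [e1, hL, hL, hq, hq, hq, inner_add_left, norm_add_sq_real]
    ring
  refine ⟨LinearMap.mk₂ ℝ B ?_ ?_ ?_ ?_, ?_, ?_⟩
  · intro v w z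
    obtain ⟨L, ⟨a, rfl⟩, ⟨c, rfl⟩, ⟨d, rfl⟩, hL⟩ := h v w z
    rw [← map_add, hBB L hL, hBB L hL, hBB L hL]
    simp only [hB₀, inner_add_left]; ring
  · intro t v w
    obtain ⟨L, ⟨a, rfl⟩, ⟨c, rfl⟩, -, hL⟩ := h v w w
    rw [← map_smul, hBB L hL, hBB L hL]
    simp only [hB₀, inner_smul_left, smul_eq_mul, conj_trivial]; ring
  · intro v w z
    obtain ⟨L, ⟨a, rfl⟩, ⟨c, rfl⟩, ⟨d, rfl⟩, hL⟩ := h v w z
    rw [← map_add, hBB L hL, hBB L hL, hBB L hL]
    simp only [hB₀, inner_add_left, inner_add_right]; ring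
  · intro t v w
    obtain ⟨L, ⟨a, rfl⟩, ⟨c, rfl⟩, -, hL⟩ := h v w w
    rw [← map_smul, hBB L hL, hBB L hL]
    simp only [hB₀, inner_smul_left, inner_smul_right, smul_eq_mul, conj_trivial]; ring
  · intro v w
    show B v w = B w v
    simp only [hB]
    rw [add_comm w v]; ring
  · intro v
    show B v v = f v ^ 2
    obtain ⟨L, ⟨a, rfl⟩, -, -, hL⟩ := h v v v
    rw [hBB L hL, hL, hq]
    simp only [hB₀]
    rw [real_inner_self_eq_norm_sq]; ring

end forms

section star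

variable {V : Type*} [NormedAddCommGroup V] [InnerProductSpace ℝ V]

/-- the gauge of the star body with radial function `ρ` -/
noncomputable def gaugeOf (ρ : V → ℝ) (v : V) : ℝ := ‖v‖ / ρ (‖v‖⁻¹ • v)

lemma gaugeOf_le_one {ρ : V → ℝ} (hpos : ∀ x, 0 < ρ x) (v : V) :
    gaugeOf ρ v ≤ 1 ↔ ‖v‖ ≤ ρ (‖v‖⁻¹ • v) := by
  rw [gaugeOf, div_le_one (hpos _)]

lemma isGauge_gaugeOf [FiniteDimensional ℝ V] {ρ : V → ℝ} (hρ : Continuous ρ)
    (hpos : ∀ x, 0 < ρ x) : IsGauge (gaugeOf ρ) := by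
  have hom : ∀ (t : ℝ), 0 ≤ t → ∀ v, gaugeOf ρ (t • v) = t * gaugeOf ρ v := by
    intro t ht v
    rcases ht.eq_or_lt with h | h
    · rw [← h]; simp [gaugeOf]
    · have e1 : ‖t • v‖⁻¹ • (t • v) = ‖v‖⁻¹ • v := by
        rw [norm_smul, Real.norm_eq_abs, abs_of_pos h, smul_smul, mul_inv]
        congr 1
        field_simp
      rw [gaugeOf, e1, norm_smul, Real.norm_eq_abs, abs_of_pos h, gaugeOf, mul_div_assoc]
  refine ⟨?_, hom, ?_⟩
  · -- continuity
    obtain ⟨m, hm0, hm⟩ : ∃ m > 0, ∀ x ∈ Metric.closedBall (0:V) 1, m ≤ ρ x := by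
      obtain ⟨a, ha, hmin⟩ := (isCompact_closedBall (0:V) 1).exists_isMinOn
        ⟨0, Metric.mem_closedBall_self zero_le_one⟩ hρ.continuousOn
      exact ⟨ρ a, hpos a, fun x hx => hmin hx⟩
    have hnn : ∀ v : V, ‖v‖⁻¹ • v ∈ Metric.closedBall (0:V) 1 := by
      intro v
      rw [mem_closedBall_zero_iff, norm_smul, norm_inv, norm_norm]
      by_cases h : ‖v‖ = 0
      · rw [h]; simp
      · rw [inv_mul_cancel₀ h]
    have hb : ∀ v, |gaugeOf ρ v| ≤ m⁻¹ * ‖v‖ := by
      intro v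
      have h1 := hm _ (hnn v)
      rw [gaugeOf, abs_div, abs_of_pos (hpos _), abs_of_nonneg (norm_nonneg v), div_eq_inv_mul]
      exact mul_le_mul_of_nonneg_right (inv_anti₀ hm0 h1) (norm_nonneg _)
    rw [continuous_iff_continuousAt]
    intro v
    by_cases hv : v = 0
    · subst hv
      have h0 : gaugeOf ρ 0 = 0 := by simp [gaugeOf]
      rw [ContinuousAt, h0]
      apply squeeze_zero_norm (a := fun v : V => m⁻¹ * ‖v‖) hb
      have : Tendsto (fun v : V => m⁻¹ * ‖v‖) (𝓝 0) (𝓝 (m⁻¹ * ‖(0:V)‖)) :=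
        (Continuous.tendsto (by fun_prop) _)
      simpa using this
    · have hn : ‖v‖ ≠ 0 := norm_ne_zero_iff.2 hv
      unfold gaugeOf
      refine ContinuousAt.div continuous_norm.continuousAt ?_ (hpos _).ne'
      refine hρ.continuousAt.comp ?_
      exact (continuous_norm.continuousAt.inv₀ hn).smul continuousAt_id
  · intro v hv
    exact div_pos (norm_pos_iff.2 hv) (hpos _)

/-- linear maps preserving membership in the unit ball preserve the gauge -/
lemma gauge_eq_of_mem {X Y : Type*} [AddCommGroup X] [Module ℝ X] [NormedAddCommGroup Y]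
    [InnerProductSpace ℝ Y] {f : Y → ℝ} (hf : IsGauge f) (hn : ∀ v, 0 ≤ f v)
    (L M : X →ₗ[ℝ] Y) (h : ∀ x, f (L x) ≤ 1 ↔ f (M x) ≤ 1) (x : X) : f (L x) = f (M x) := by
  have key : ∀ (L M : X →ₗ[ℝ] Y), (∀ x, f (L x) ≤ 1 ↔ f (M x) ≤ 1) → f (L x) ≤ f (M x) := by
    intro L M h
    apply le_of_forall_pos_le_add
    intro ε hε
    set t := f (M x) + ε with ht
    have ht0 : 0 < t := by have := hn (M x); linarith
    have h1 : f (M (t⁻¹ • x)) ≤ 1 := by
      rw [map_smul, hf.hom _ (inv_nonneg.2 ht0.le), inv_mul_le_one₀ ht0]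
      linarith
    have h2 := (h _).2 h1
    rw [map_smul, hf.hom _ (inv_nonneg.2 ht0.le), inv_mul_le_one₀ ht0] at h2
    exact h2
  exact le_antisymm (key L M h) (key M L (fun x => (h x).symm))

end star

end Pool.Agent.H87Star
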