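import Mathlib
import Pool.Agent.H87Star.Final

set_option autoImplicit false

/-! Main theorem in terms of gauges. -/

namespace Pool.Agent.H87Star

open Set Filter Topology

variable {U : Type*} [NormedAddCommGroup U] [InnerProductSpace ℝ U] [FiniteDimensional ℝ U]

/-- if all `k`-dimensional sections are equivalent to a quadratic gauge, the gauge is Euclidean -/
theorem euclidean_of_quad {n k : ℕ} (hk : 3 ≤ k) (hn : k ≤ n)
    {f : EuclideanSpace ℝ (Fin n) → ℝ} (hf : IsGauge f) (hU : Module.finrank ℝ U = k)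
    {f₀ : U → ℝ} (hf₀ : IsGauge f₀) {e : U} (hQ : Quad f₀ e)
    (h : ∀ S : Submodule ℝ (EuclideanSpace ℝ (Fin n)), Module.finrank ℝ S = k →
      ∃ L : U →ₗ[ℝ] EuclideanSpace ℝ (Fin n), (∀ u, L u ∈ S) ∧ ∀ u, f (L u) = f₀ u) :
    ∃ A : EuclideanSpace ℝ (Fin n) ≃ₗ[ℝ] EuclideanSpace ℝ (Fin n), ∀ x, f (A x) = ‖x‖ := by
  classical
  obtain ⟨b, hs, hb⟩ := form_of_quad_sections (f := f) hQ (by
    intro v w z
    have h1 : Module.finrank ℝ (Submodule.span ℝ ({v, w, z} : Set (EuclideanSpace ℝ (Fin n)))) ≤ k := by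
      have h2 : (({v, w, z} : Finset (EuclideanSpace ℝ (Fin n))) : Set (EuclideanSpace ℝ (Fin n)))
          = {v, w, z} := by simp
      have h3 := finrank_span_finset_le_card (R := ℝ) ({v, w, z} : Finset (EuclideanSpace ℝ (Fin n)))
      rw [Set.finrank, h2] at h3
      exact h3.trans (Finset.card_le_three.trans hk)
    obtain ⟨S, hS1, hS2⟩ := exists_sub_ge _ k h1 (by rw [finrank_euclideanSpace_fin]; exact hn)
    obtain ⟨L, hL1, hL2⟩ := h S hS2
    have hinj : Function.Injective L := injective_of_comp hf₀ hf.zero L hL2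
    have h4 : LinearMap.range L = S := by
      apply Submodule.eq_of_le_of_finrank_eq
      · rintro _ ⟨u, rfl⟩; exact hL1 u
      · rw [LinearMap.finrank_range_of_inj hinj, hU, hS2]
    have hmem : ∀ x ∈ ({v, w, z} : Set (EuclideanSpace ℝ (Fin n))), ∃ a, L a = x := by
      intro x hx
      have : x ∈ LinearMap.range L := by
        rw [h4]; exact hS1 (Submodule.subset_span hx)
      exact LinearMap.mem_range.1 this
    exact ⟨L, hmem v (by simp), hmem w (by simp), hmem z (by simp), hL2⟩)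
  obtain ⟨A, hA⟩ := exists_equiv_of_form b hs (fun v hv => by
    rw [hb]; exact pow_pos (hf.pos v hv) 2)
  refine ⟨A, fun x => ?_⟩
  have h5 := hA x
  rw [hb] at h5
  exact (sq_eq_sq₀ (hf.nonneg _) (norm_nonneg _)).1 h5

theorem euclidean_of_axial {n k : ℕ} (hk : 3 ≤ k) (hn : k + 1 ≤ n)
    {f : EuclideanSpace ℝ (Fin n) → ℝ} (hf : IsGauge f) (hU : Module.finrank ℝ U = k)
    {f₀ : U → ℝ} (hf₀ : IsGauge f₀) {e : U} (he : ‖e‖ = 1) (hA : Axial f₀ e)
    (h : ∀ S : Submodule ℝ (EuclideanSpace ℝ (Fin n)), Module.finrank ℝ S = k →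
      ∃ L : U →ₗ[ℝ] EuclideanSpace ℝ (Fin n), (∀ u, L u ∈ S) ∧ ∀ u, f (L u) = f₀ u) :
    ∃ A : EuclideanSpace ℝ (Fin n) ≃ₗ[ℝ] EuclideanSpace ℝ (Fin n), ∀ x, f (A x) = ‖x‖ := by
  refine euclidean_of_quad hk (by omega) hf hU hf₀ (e := e) ?_ h
  obtain ⟨W, -, hW⟩ := exists_sub_ge (⊥ : Submodule ℝ (EuclideanSpace ℝ (Fin n))) (k + 1)
    (by rw [finrank_bot]; omega) (by rw [finrank_euclideanSpace_fin]; exact hn)
  have hfW : IsGauge (fun w : W => f (w : EuclideanSpace ℝ (Fin n))) := gauge_comp hf W.subtypeₗᵢ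
  refine quad_of_sections hfW hf₀ (by rw [hW, hU]) (by rw [hU]; exact hk) he hA ?_
  intro x hx
  have h1 : Module.finrank ℝ (((ℝ ∙ x)ᗮ : Submodule ℝ W).map W.subtype) = k := by
    rw [Submodule.finrank_map_subtype_eq]
    have h4 := Submodule.finrank_add_finrank_orthogonal (ℝ ∙ x)
    rw [finrank_span_singleton hx, hW] at h4
    omega
  obtain ⟨L, hL1, hL2⟩ := h _ h1
  have hLW : ∀ u, L u ∈ W := fun u => Submodule.map_subtype_le _ _ (hL1 u)
  refine ⟨L.codRestrict W hLW, ?_, ?_⟩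
  · intro u
    obtain ⟨y, hy, hy2⟩ := Submodule.mem_map.1 (hL1 u)
    have h5 : L.codRestrict W hLW u = y := Subtype.ext hy2.symm
    rw [h5]
    exact (Submodule.mem_orthogonal_singleton_iff_inner_right).1 hy
  · intro u
    exact hL2 u

end Pool.Agent.H87Star
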