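import Mathlib
import Pool.Agent.H87Star.Core

set_option autoImplicit false

/-! From sections of sets to gauges. -/

namespace Pool.Agent.H87Star

open Set Filter Topology

variable {V U : Type*} [NormedAddCommGroup V] [InnerProductSpace ℝ V]
  [NormedAddCommGroup U] [InnerProductSpace ℝ U]

lemma affine_apply {S T : Submodule ℝ V} (f : S ≃ᵃ[ℝ] T) (x : S) : f x = f.linear x + f 0 := by
  have := f.map_vadd 0 x
  simpa using this

lemma map_zero_of_symm {S T : Submodule ℝ V} (f : S ≃ᵃ[ℝ] T) {K : Set V} (h0 : (0:V) ∈ K)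
    (hb : ∃ C : ℝ, ∀ x ∈ K, ‖x‖ ≤ C) (hsymm : ∀ x ∈ K, -x ∈ K)
    (hf : f '' {x : S | (x:V) ∈ K} = {y : T | (y:V) ∈ K}) : f 0 = 0 := by
  obtain ⟨C, hC⟩ := hb
  have hmem : ∀ x : S, (x:V) ∈ K → ((f x : T) : V) ∈ K := by
    intro x hx
    have h1 : f x ∈ f '' {x : S | (x:V) ∈ K} := mem_image_of_mem _ hx
    rw [hf] at h1
    exact h1
  have key : ∀ m : ℕ, ∃ x : S, (x:V) ∈ K ∧ f.linear x = (2 * (m:ℝ)) • f 0 := by
    intro m
    induction m with
    | zero => exact ⟨0, by simpa using h0, by simp⟩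
    | succ m ih =>
      obtain ⟨x, hx, hx2⟩ := ih
      have h1 : ((-(f x) : T) : V) ∈ K := hsymm _ (hmem x hx)
      have h2 : -(f x) ∈ f '' {x : S | (x:V) ∈ K} := by rw [hf]; exact h1
      obtain ⟨x', hx', hx'2⟩ := h2
      refine ⟨-x', hsymm _ hx', ?_⟩
      have h3 : f.linear x' = -(f x) - f 0 := by
        rw [← hx'2, affine_apply f x', add_sub_cancel_right]
      rw [map_neg, h3, affine_apply f x, hx2]
      push_cast
      module
  have hnorm : ∀ m : ℕ, (2 * (m:ℝ) + 1) * ‖f 0‖ ≤ C := by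
    intro m
    obtain ⟨x, hx, hx2⟩ := key m
    have h1 := hC _ (hmem x hx)
    have h2 : f x = (2 * (m:ℝ) + 1) • f 0 := by
      rw [affine_apply, hx2]; module
    rw [h2, Submodule.coe_smul, norm_smul, Real.norm_eq_abs,
      abs_of_pos (by positivity : (0:ℝ) < 2 * m + 1)] at h1
    exact h1
  by_contra hne
  have hpos : 0 < ‖f 0‖ := norm_pos_iff.2 hne
  obtain ⟨m, hm⟩ := exists_nat_gt (C / ‖f 0‖)
  rw [div_lt_iff₀ hpos] at hm
  have := hnorm m
  nlinarith [norm_nonneg (f 0)]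

lemma gauge_comp_linear [FiniteDimensional ℝ U] {f : V → ℝ} (hf : IsGauge f) (M : U →ₗ[ℝ] V)
    (hM : Function.Injective M) : IsGauge (fun u => f (M u)) where
  cont := hf.cont.comp (LinearMap.continuous_of_finiteDimensional M)
  hom := by
    intro t ht v
    show f (M (t • v)) = t * f (M v)
    rw [map_smul, hf.hom t ht]
  pos := by
    intro v hv
    exact hf.pos _ (fun h => hv (hM (by rw [h, map_zero])))

lemma exists_rotation [FiniteDimensional ℝ U] (hdim : 3 ≤ Module.finrank ℝ U) {e v w : U}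
    (hn : ‖v‖ = ‖w‖) (hi : inner ℝ v e = inner ℝ w e) :
    ∃ R : U ≃ₗᵢ[ℝ] U, R e = e ∧ R v = w ∧ LinearMap.det R.toLinearEquiv.toLinearMap = 1 := by
  by_cases hvw : v = w
  · refine ⟨LinearIsometryEquiv.refl ℝ U, rfl, hvw, ?_⟩
    have : (LinearIsometryEquiv.refl ℝ U).toLinearEquiv.toLinearMap = LinearMap.id := rfl
    rw [this, LinearMap.det_id]
  obtain ⟨q, hq0, hqe, hqw⟩ : ∃ q : U, q ≠ 0 ∧ inner ℝ q e = 0 ∧ inner ℝ q w = 0 := by
    set φ : U →ₗ[ℝ] ℝ × ℝ := (innerₗ U e).prod (innerₗ U w) with hφ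
    have hk : LinearMap.ker φ ≠ ⊥ := by
      apply LinearMap.ker_ne_bot_of_finrank_lt
      rw [Module.finrank_prod, Module.finrank_self]
      omega
    obtain ⟨q, hq, hq0⟩ := Submodule.exists_mem_ne_zero_of_ne_bot hk
    have hq' : ((inner ℝ e q, inner ℝ w q) : ℝ × ℝ) = (0, 0) := hq
    rw [Prod.mk.injEq] at hq'
    exact ⟨q, hq0, by rw [real_inner_comm]; exact hq'.1, by rw [real_inner_comm]; exact hq'.2⟩
  have hdet : ∀ d : U, d ≠ 0 → LinearMap.det ((ℝ ∙ d)ᗮ.reflection).toLinearEquiv.toLinearMap = -1 := by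
    intro d hd
    have := Submodule.det_reflection (𝕜 := ℝ) (ℝ ∙ d)ᗮ
    rw [Submodule.orthogonal_orthogonal, finrank_span_singleton hd, pow_one] at this
    exact this
  refine ⟨((ℝ ∙ (v - w))ᗮ.reflection).trans ((ℝ ∙ q)ᗮ.reflection), ?_, ?_, ?_⟩
  · have h1 : (ℝ ∙ (v - w))ᗮ.reflection e = e := by
      rw [Submodule.reflection_eq_self_iff, Submodule.mem_orthogonal_singleton_iff_inner_right,
        inner_sub_left, hi, sub_self]
    have h2 : (ℝ ∙ q)ᗮ.reflection e = e := by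
      rw [Submodule.reflection_eq_self_iff, Submodule.mem_orthogonal_singleton_iff_inner_right]
      exact hqe
    rw [LinearIsometryEquiv.trans_apply, h1, h2]
  · have h1 : (ℝ ∙ (v - w))ᗮ.reflection v = w := Submodule.reflection_sub hn
    have h2 : (ℝ ∙ q)ᗮ.reflection w = w := by
      rw [Submodule.reflection_eq_self_iff, Submodule.mem_orthogonal_singleton_iff_inner_right]
      exact hqw
    rw [LinearIsometryEquiv.trans_apply, h1, h2]
  · have : (((ℝ ∙ (v - w))ᗮ.reflection).trans ((ℝ ∙ q)ᗮ.reflection)).toLinearEquiv.toLinearMap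
        = ((ℝ ∙ q)ᗮ.reflection).toLinearEquiv.toLinearMap ∘ₗ
          ((ℝ ∙ (v - w))ᗮ.reflection).toLinearEquiv.toLinearMap := rfl
    rw [this, LinearMap.det_comp, hdet q hq0, hdet _ (sub_ne_zero.2 hvw)]
    norm_num

/-- data extracted from the hypotheses on sections of a star body -/
theorem sections_data {n k : ℕ}
    {K : Set (EuclideanSpace ℝ (Fin n))} {ρ : EuclideanSpace ℝ (Fin n) → ℝ} (hρ : Continuous ρ)
    (hpos : ∀ x, 0 < ρ x) (hK : K = {x | ‖x‖ ≤ ρ (‖x‖⁻¹ • x)})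
    (hsec : ∀ S T : Submodule ℝ (EuclideanSpace ℝ (Fin n)),
      Module.finrank ℝ S = k → Module.finrank ℝ T = k →
      ∃ f : S ≃ᵃ[ℝ] T,
        f '' {x : S | (x : EuclideanSpace ℝ (Fin n)) ∈ K} =
          {y : T | (y : EuclideanSpace ℝ (Fin n)) ∈ K} ∧
        ((∀ x ∈ K, -x ∈ K) ∨ f 0 = 0))
    (S : Submodule ℝ (EuclideanSpace ℝ (Fin n))) (g : EuclideanSpace ℝ (Fin k) ≃ₗ[ℝ] S)
    (T : Submodule ℝ (EuclideanSpace ℝ (Fin n))) (hT : Module.finrank ℝ T = k) :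
    ∃ L : EuclideanSpace ℝ (Fin k) →ₗ[ℝ] EuclideanSpace ℝ (Fin n), (∀ u, L u ∈ T) ∧
      ∀ u, gaugeOf ρ (L u) = gaugeOf ρ (g u) := by
  have hf : IsGauge (gaugeOf ρ) := isGauge_gaugeOf hρ hpos
  have hmemK : ∀ x, x ∈ K ↔ gaugeOf ρ x ≤ 1 := by
    intro x; rw [gaugeOf_le_one hpos, hK]; rfl
  have h0 : (0 : EuclideanSpace ℝ (Fin n)) ∈ K := by
    rw [hmemK, hf.zero]; exact zero_le_one
  have hb : ∃ C : ℝ, ∀ x ∈ K, ‖x‖ ≤ C := by
    obtain ⟨c, C, hc, hC, hb⟩ := hf.bounds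
    refine ⟨1 / c, fun x hx => ?_⟩
    rw [le_div_iff₀ hc]
    have := (hb x).1
    have := (hmemK x).1 hx
    linarith [mul_comm c ‖x‖]
  have hS : Module.finrank ℝ S = k := by
    rw [← g.finrank_eq, finrank_euclideanSpace_fin]
  obtain ⟨f, hfi, hf2⟩ := hsec S T hS hT
  have hf0 : f 0 = 0 := by
    rcases hf2 with h | h
    · exact map_zero_of_symm f h0 hb h hfi
    · exact h
  have hfx : ∀ x : S, f x = f.linear x := by
    intro x; rw [affine_apply, hf0, add_zero]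
  have hiff : ∀ x : S, ((f.linear x : T) : EuclideanSpace ℝ (Fin n)) ∈ K ↔
      (x : EuclideanSpace ℝ (Fin n)) ∈ K := by
    intro x
    rw [← hfx]
    have h1 : f x ∈ f '' {x : S | (x : EuclideanSpace ℝ (Fin n)) ∈ K} ↔
        x ∈ {x : S | (x : EuclideanSpace ℝ (Fin n)) ∈ K} := f.injective.mem_set_image
    rw [hfi] at h1
    exact h1
  refine ⟨T.subtype ∘ₗ f.linear.toLinearMap ∘ₗ g.toLinearMap, fun u => ?_, fun u => ?_⟩
  · exact (f.linear (g u)).2
  · refine gauge_eq_of_mem hf hf.nonneg (T.subtype ∘ₗ f.linear.toLinearMap ∘ₗ g.toLinearMap)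
      (S.subtype ∘ₗ g.toLinearMap) (fun x => ?_) u
    have h1 := hiff (g x)
    rw [hmemK, hmemK] at h1
    exact h1

end Pool.Agent.H87Star
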